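import Pool.Agent.Helper39.Gold.Cap

/-! # Additivity of the null ideal, from the real line to all Polish probability spaces -/

namespace Pool.Agent.Helper39.Gold

open MeasureTheory Cardinal Set Filter Topology unitInterval

theorem null_of_lt_addN {𝒩 : Set (Set ℝ)} (hc : #𝒩 < addN) (h : ∀ N ∈ 𝒩, volume N = 0) :
    volume (⋃₀ 𝒩) = 0 := by
  by_contra hne
  exact (notMem_of_lt_csInf hc (OrderBot.bddBelow _)) ⟨𝒩, rfl, h, hne⟩

theorem le_addN {κ : Cardinal.{0}} (h : ∀ 𝒩 : Set (Set ℝ), #𝒩 < κ → (∀ N ∈ 𝒩, volume N = 0) →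
    volume (⋃₀ 𝒩) = 0) : κ ≤ addN := by
  apply le_csInf
  · refine ⟨_, range (fun x : ℝ => {x}), rfl, ?_, ?_⟩
    · rintro _ ⟨x, rfl⟩
      simp
    · have : ⋃₀ range (fun x : ℝ => ({x} : Set ℝ)) = Set.univ := by
        ext x; simp
      rw [this]
      simp
  · rintro _ ⟨𝒩, rfl, h1, h2⟩
    by_contra hlt
    exact h2 (h 𝒩 (not_le.1 hlt) h1)

theorem null_I {𝒩 : Set (Set I)} (hc : #𝒩 < addN) (h : ∀ N ∈ 𝒩, volume N = 0) :
    volume (⋃₀ 𝒩) = 0 := by
  have hemb : MeasurableEmbedding (Subtype.val : I → ℝ) :=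
    MeasurableEmbedding.subtype_coe measurableSet_Icc
  have hvol : ∀ s : Set I, volume s = volume (Subtype.val '' s) := by
    intro s
    exact (comap_subtype_coe_apply measurableSet_Icc volume s)
  rw [hvol]
  have := null_of_lt_addN (𝒩 := (fun s : Set I => (Subtype.val '' s : Set ℝ)) '' 𝒩)
    (Cardinal.mk_image_le.trans_lt hc) (by
      rintro _ ⟨N, hN, rfl⟩
      rw [← hvol]
      exact h N hN)
  refine measure_mono_null ?_ this
  rintro _ ⟨y, ⟨N, hN, hy⟩, rfl⟩
  exact ⟨_, ⟨N, hN, rfl⟩, y, hy, rfl⟩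

/-- Fewer than `add(𝒩)` null sets of a Polish probability space have a null union. -/
theorem null_polish {Y : Type} [TopologicalSpace Y] [PolishSpace Y] [MeasurableSpace Y]
    [BorelSpace Y] (μ : Measure Y) [IsProbabilityMeasure μ] {𝒩 : Set (Set Y)} (hc : #𝒩 < addN)
    (h : ∀ N ∈ 𝒩, μ N = 0) : μ (⋃₀ 𝒩) = 0 := by
  have : Nonempty Y := μ.nonempty_of_neZero
  obtain ⟨f, hf, hmap⟩ := μ.exists_measurable_map_eq
  -- enlarge the null sets to Borel ones
  let 𝒩' : Set (Set I) := (fun N => f ⁻¹' (toMeasurable μ N)) '' 𝒩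
  have hnull : volume (⋃₀ 𝒩') = 0 := by
    refine null_I (Cardinal.mk_image_le.trans_lt hc) ?_
    rintro _ ⟨N, hN, rfl⟩
    rw [← Measure.map_apply hf (measurableSet_toMeasurable μ N), hmap, measure_toMeasurable]
    exact h N hN
  set M : Set I := toMeasurable volume (⋃₀ 𝒩') with hM
  have hM0 : volume M = 0 := by rw [hM, measure_toMeasurable, hnull]
  have hMm : MeasurableSet M := measurableSet_toMeasurable _ _
  have hdisj : Disjoint (f '' Mᶜ) (⋃₀ 𝒩) := by
    rw [disjoint_left]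
    rintro _ ⟨t, ht, rfl⟩ ⟨N, hN, hy⟩
    apply ht
    apply subset_toMeasurable
    exact ⟨_, ⟨N, hN, rfl⟩, subset_toMeasurable μ N hy⟩
  have han : AnalyticSet (f '' Mᶜ) := hMm.compl.analyticSet_image hf
  have h1 : μ (f '' Mᶜ) = 1 := by
    apply le_antisymm prob_le_one
    rw [← measure_toMeasurable, ← hmap, Measure.map_apply hf (measurableSet_toMeasurable _ _)]
    calc (1 : ENNReal) = volume (Mᶜ) := by
          rw [measure_compl hMm (measure_ne_top _ _), hM0, tsub_zero]; simp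
      _ ≤ _ := by
        apply measure_mono
        rw [hmap]
        intro t ht
        exact subset_toMeasurable μ _ ⟨t, ht, rfl⟩
  rw [AnalyticSet] at han
  rcases han with he | ⟨g, hg, hgr⟩
  · rw [he] at h1
    simp at h1
  rw [← nonpos_iff_eq_zero]
  refine le_of_forall_gt_imp_ge_of_dense fun ε hε => ?_
  rcases le_or_gt 1 ε with hε1 | hε1
  · exact prob_le_one.trans hε1
  have ha : 1 - ε < μ (range g) := by
    rw [hgr, h1]
    exact ENNReal.sub_lt_self (by simp) (by simp) hε.ne'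
  obtain ⟨K, hK, hle⟩ := exists_compact μ hg ha
  have hKc : IsCompact (g '' K) := hK.image hg
  have hsub : ⋃₀ 𝒩 ⊆ (g '' K)ᶜ := by
    intro y hy hyK
    have : y ∈ f '' Mᶜ := by rw [← hgr]; exact image_subset_range _ _ hyK
    exact disjoint_left.1 hdisj this hy
  calc μ (⋃₀ 𝒩) ≤ μ (g '' K)ᶜ := measure_mono hsub
    _ = 1 - μ (g '' K) := prob_compl_eq_one_sub hKc.isClosed.measurableSet
    _ ≤ 1 - (1 - ε) := tsub_le_tsub_left hle 1
    _ = ε := ENNReal.sub_sub_cancel (by simp) hε1.le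

end Pool.Agent.Helper39.Gold
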