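import Pool.Agent.Helper39.Gold.Add

/-! # Fewer than `add(𝒩)` functions are eventually bounded by one function -/

namespace Pool.Agent.Helper39.Gold

open MeasureTheory Cardinal Set Filter Topology unitInterval

/-- The threshold `2⁻ⁿ`. -/
noncomputable def thr (n : ℕ) : I := ⟨(1 / 2 : ℝ) ^ n, by positivity, pow_le_one₀ (by norm_num) (by norm_num)⟩

/-- The product of the Lebesgue measures. -/
noncomputable def pm : Measure (ℕ → I) := Measure.infinitePi fun _ => (volume : Measure I)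

instance : IsProbabilityMeasure pm := by unfold pm; infer_instance

theorem pm_lt (k n : ℕ) : pm {y | y k < thr n} = ENNReal.ofReal ((1 / 2 : ℝ) ^ n) := by
  have h := (measurePreserving_eval_infinitePi (fun _ : ℕ => (volume : Measure I)) k).measure_preimage
    (s := Iio (thr n)) measurableSet_Iio.nullMeasurableSet
  rw [unitInterval.volume_Iio] at h
  exact h

theorem pm_null (f : ℕ → ℕ) : pm {y | ∃ᶠ n in atTop, y (f n) < thr n} = 0 := by
  refine measure_setOfPred_frequently_eq_zero ?_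
  simp only [pm_lt]
  rw [← ENNReal.ofReal_tsum_of_nonneg (fun n => by positivity)
    (summable_geometric_of_lt_one (by norm_num) (by norm_num))]
  exact ENNReal.ofReal_ne_top

theorem pm_ge (T : Finset ℕ) (n : ℕ) :
    pm {y | ∀ k ∈ T, thr n ≤ y k} = ENNReal.ofReal (1 - (1 / 2 : ℝ) ^ n) ^ T.card := by
  have h := Measure.infinitePi_pi (fun _ : ℕ => (volume : Measure I)) (s := T)
    (t := fun _ => Ici (thr n)) (fun _ _ => measurableSet_Ici)
  simp only [unitInterval.volume_Ici, Finset.prod_const] at h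
  rw [← show ((thr n : I) : ℝ) = (1 / 2 : ℝ) ^ n from rfl, ← h]
  congr 1

/-- Countably many functions are eventually bounded by one function. -/
theorem countable_bdd (g : ℕ → ℕ → ℕ) : ∃ x : ℕ → ℕ, ∀ i, ∀ᶠ n in atTop, g i n ≤ x n := by
  refine ⟨fun n => (Finset.range (n + 1)).sup fun i => g i n, fun i => ?_⟩
  filter_upwards [eventually_ge_atTop i] with n hn
  exact Finset.le_sup (f := fun i => g i n) (Finset.mem_range.2 (by omega))

/-- The null set attached to a function. -/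
def HH (f : ℕ → ℕ) : Set (ℕ → I) := {y | ∃ᶠ n in atTop, y (f n) < thr n}

theorem bdd_of_null {F : Set (ℕ → ℕ)} (h0 : pm (⋃₀ (HH '' F)) = 0) :
    ∃ x : ℕ → ℕ, ∀ f ∈ F, ∀ᶠ n in atTop, f n ≤ x n := by
  set 𝒩 : Set (Set (ℕ → I)) := HH '' F
  -- a closed set of positive measure disjoint from all these sets
  obtain ⟨K, hK, hKc, hKpos⟩ : ∃ K : Set (ℕ → I), K ⊆ (⋃₀ 𝒩)ᶜ ∧ IsClosed K ∧ 0 < pm K := by
    have hm : MeasurableSet (toMeasurable pm (⋃₀ 𝒩))ᶜ := (measurableSet_toMeasurable _ _).compl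
    have h1 : pm (toMeasurable pm (⋃₀ 𝒩))ᶜ = 1 := by
      rw [prob_compl_eq_one_iff (measurableSet_toMeasurable _ _), measure_toMeasurable, h0]
    obtain ⟨K, hK1, hK2, hK3⟩ := hm.exists_lt_isClosed_of_ne_top (μ := pm) (measure_ne_top _ _)
      (r := 0) (by rw [h1]; simp)
    exact ⟨K, hK1.trans (compl_subset_compl.2 (subset_toMeasurable _ _)), hK2, hK3⟩
  obtain ⟨b, hbc, hbe, hb⟩ := TopologicalSpace.exists_countable_basis (ℕ → I)
  -- remove the null relatively open pieces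
  let O : Set (ℕ → I) := ⋃ V ∈ {V ∈ b | pm (V ∩ K) = 0}, V
  have hOo : IsOpen O := isOpen_biUnion fun V hV => hb.isOpen hV.1
  have hOK : pm (O ∩ K) = 0 := by
    have : O ∩ K = ⋃ V ∈ {V ∈ b | pm (V ∩ K) = 0}, (V ∩ K) := by
      simp only [O, iUnion_inter]
    rw [this, measure_biUnion_null_iff (hbc.mono (sep_subset _ _))]
    intro V hV
    exact hV.2
  let L : Set (ℕ → I) := K \ O
  have hLc : IsClosed L := hKc.sdiff hOo
  have hVL : ∀ V ∈ b, (V ∩ L).Nonempty → 0 < pm (V ∩ L) := by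
    rintro V hV ⟨y, hyV, hyK, hyO⟩
    rw [pos_iff_ne_zero]
    intro h
    apply hyO
    refine mem_biUnion (x := V) ⟨hV, ?_⟩ hyV
    refine measure_mono_null ?_ (measure_union_null h hOK)
    rintro z ⟨hz1, hz2⟩
    by_cases hz : z ∈ O
    · exact Or.inr ⟨hz, hz2⟩
    · exact Or.inl ⟨hz1, hz2, hz⟩
  have hLne : L.Nonempty := by
    by_contra hne
    rw [not_nonempty_iff_eq_empty] at hne
    have : K ⊆ O ∩ K := by
      intro y hy
      by_contra hyO
      have : y ∈ L := ⟨hy, fun h => hyO ⟨h, hy⟩⟩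
      rw [hne] at this
      exact this
    exact hKpos.ne' (measure_mono_null this hOK)
  -- the bounding functions
  have hfin : ∀ V : Set (ℕ → I), ∀ n : ℕ, ∃ g : ℕ, V ∈ b → (V ∩ L).Nonempty →
      ∀ k, (∀ y ∈ V ∩ L, thr n ≤ y k) → k ≤ g := by
    intro V n
    by_cases hV : V ∈ b ∧ (V ∩ L).Nonempty
    swap
    · exact ⟨0, fun h1 h2 => absurd ⟨h1, h2⟩ hV⟩
    have hpos := hVL V hV.1 hV.2
    have hS : {k | ∀ y ∈ V ∩ L, thr n ≤ y k}.Finite := by
      by_contra hinf
      have hle : ∀ j : ℕ, pm (V ∩ L) ≤ ENNReal.ofReal (1 - (1 / 2 : ℝ) ^ n) ^ j := by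
        intro j
        obtain ⟨T, hT, hTj⟩ := (show {k | ∀ y ∈ V ∩ L, thr n ≤ y k}.Infinite from
          hinf).exists_subset_card_eq j
        rw [← hTj, ← pm_ge]
        apply measure_mono
        intro y hy k hk
        exact hT hk y hy
      have hlt : ENNReal.ofReal (1 - (1 / 2 : ℝ) ^ n) < 1 := by
        rw [← ENNReal.ofReal_one]
        apply (ENNReal.ofReal_lt_ofReal_iff (by norm_num)).2
        have : (0 : ℝ) < (1 / 2) ^ n := by positivity
        linarith
      have hlim := ENNReal.tendsto_pow_atTop_nhds_zero_of_lt_one hlt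
      have := ge_of_tendsto' hlim hle
      exact hpos.ne' (nonpos_iff_eq_zero.1 this)
    obtain ⟨g, hg⟩ := hS.bddAbove
    exact ⟨g, fun _ _ k hk => hg hk⟩
  choose g hg using hfin
  have hbne : b.Nonempty := by
    by_contra hne
    rw [not_nonempty_iff_eq_empty] at hne
    have h1 := hb.sUnion_eq
    rw [hne, sUnion_empty] at h1
    exact (Set.univ_nonempty (α := ℕ → I)).ne_empty h1.symm
  obtain ⟨u, hu⟩ := hbc.exists_eq_range hbne
  obtain ⟨x, hx⟩ := countable_bdd fun i => g (u i)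
  refine ⟨x, fun f hf => ?_⟩
  -- Baire category in `L`
  have hcov : L ⊆ ⋃ m : ℕ, {y : ℕ → I | ∀ n, m ≤ n → thr n ≤ y (f n)} := by
    intro y hy
    have : y ∉ {y : ℕ → I | ∃ᶠ n in atTop, y (f n) < thr n} := by
      intro h
      exact hK hy.1 ⟨_, ⟨f, hf, rfl⟩, h⟩
    simp only [mem_iUnion]
    have h2 : ∀ᶠ n in atTop, ¬ y (f n) < thr n := by
      by_contra h3
      exact this h3
    obtain ⟨m, hm⟩ := eventually_atTop.1 h2
    exact ⟨m, fun n hn => not_lt.1 (hm n hn)⟩
  have : PolishSpace L := hLc.polishSpace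
  have : Nonempty L := hLne.to_subtype
  have hcl : ∀ m : ℕ, IsClosed {y : L | ∀ n, m ≤ n → thr n ≤ y.1 (f n)} := by
    intro m
    simp only [Set.ofPred_forall]
    exact isClosed_iInter fun n => isClosed_iInter fun _ =>
      isClosed_le continuous_const ((continuous_apply (f n)).comp continuous_subtype_val)
  obtain ⟨m, y0, hy0⟩ := nonempty_interior_of_iUnion_of_closed hcl (by
    rw [eq_univ_iff_forall]
    rintro ⟨y, hy⟩
    obtain ⟨m, hm⟩ := mem_iUnion.1 (hcov hy)
    exact mem_iUnion.2 ⟨m, hm⟩)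
  obtain ⟨O', hO', hO'eq⟩ := isOpen_induced_iff.1 (isOpen_interior
    (s := {y : L | ∀ n, m ≤ n → thr n ≤ y.1 (f n)}))
  have hy0' : y0.1 ∈ O' := by
    have : y0 ∈ Subtype.val ⁻¹' O' := by rw [hO'eq]; exact hy0
    exact this
  obtain ⟨V, hVb, hy0V, hVO⟩ := hb.exists_subset_of_mem_open hy0' hO'
  obtain ⟨i, rfl⟩ : V ∈ range u := by rw [← hu]; exact hVb
  filter_upwards [hx i, eventually_ge_atTop m] with n hn hnm
  refine le_trans (hg (u i) n hVb ⟨y0.1, hy0V, y0.2⟩ (f n) ?_) hn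
  rintro y ⟨hyV, hyL⟩
  have : (⟨y, hyL⟩ : L) ∈ Subtype.val ⁻¹' O' := hVO hyV
  rw [hO'eq] at this
  exact interior_subset this n hnm

theorem bdd_of_lt_addN {F : Set (ℕ → ℕ)} (hF : #F < addN) :
    ∃ x : ℕ → ℕ, ∀ f ∈ F, ∀ᶠ n in atTop, f n ≤ x n := by
  refine bdd_of_null (null_polish pm (Cardinal.mk_image_le.trans_lt hF) ?_)
  rintro _ ⟨f, -, rfl⟩
  exact pm_null f

end Pool.Agent.Helper39.Gold
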