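import Pool.Agent.Helper39.Gold.Proj

/-! # The capacity argument -/

namespace Pool.Agent.Helper39.Gold

open MeasureTheory Cardinal Set Filter Topology

theorem exists_seq_update {P : ℕ → (ℕ → ℕ) → Prop} (h0 : P 0 0)
    (hdep : ∀ k w w', (∀ i < k, w i = w' i) → P k w → P k w')
    (hs : ∀ k w, P k w → ∃ j, P (k + 1) (Function.update w k j)) :
    ∃ w : ℕ → ℕ, ∀ k, P k w := by
  classical
  choose! J hJ using hs
  let W : ℕ → ℕ → ℕ := fun k => Nat.rec 0 (fun k w => Function.update w k (J k w)) k
  have hW : ∀ k, W (k + 1) = Function.update (W k) k (J k (W k)) := fun k => rfl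
  have hP : ∀ k, P k (W k) := by
    intro k
    induction k with
    | zero => exact h0
    | succ k ih => rw [hW]; exact hJ k _ ih
  have hst : ∀ k m, k ≤ m → ∀ i < k, W m i = W k i := by
    intro k m hkm
    induction m, hkm using Nat.le_induction with
    | base => intro i _; rfl
    | succ m hm ih =>
      intro i hi
      rw [hW, Function.update_of_ne (by omega)]
      exact ih i hi
  refine ⟨fun i => W (i + 1) i, fun k => hdep k (W k) _ ?_ (hP k)⟩
  intro i hi
  exact hst (i + 1) k (by omega) i (by omega)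

/-- Continuous images of the Baire space are inner regular for compact images. -/
theorem exists_compact {Y : Type} [TopologicalSpace Y] [PolishSpace Y] [MeasurableSpace Y]
    [BorelSpace Y] (μ : Measure Y) [IsProbabilityMeasure μ] {g : (ℕ → ℕ) → Y} (hg : Continuous g)
    {a : ENNReal} (ha : a < μ (range g)) : ∃ K : Set (ℕ → ℕ), IsCompact K ∧ a ≤ μ (g '' K) := by
  let E : ℕ → (ℕ → ℕ) → Set Y := fun k w => g '' {z | ∀ i < k, z i ≤ w i}
  have hE0 : E 0 0 = range g := by
    have : {z : ℕ → ℕ | ∀ i < 0, z i ≤ (0 : ℕ → ℕ) i} = Set.univ := by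
      ext z; simp
    simp only [E, this, image_univ]
  obtain ⟨w, hw⟩ : ∃ w : ℕ → ℕ, ∀ k, a < μ (E k w) := by
    apply exists_seq_update (P := fun k w => a < μ (E k w))
    · rw [hE0]; exact ha
    · intro k w w' hww' hk
      have : E k w = E k w' := by
        have : {z : ℕ → ℕ | ∀ i < k, z i ≤ w i} = {z | ∀ i < k, z i ≤ w' i} := by
          ext z
          constructor
          · intro hz i hi; rw [← hww' i hi]; exact hz i hi
          · intro hz i hi; rw [hww' i hi]; exact hz i hi
        simp only [E, this]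
      rwa [← this]
    · intro k w hk
      have hun : E k w = ⋃ j : ℕ, E (k + 1) (Function.update w k j) := by
        ext y
        simp only [E, mem_iUnion, mem_image]
        constructor
        · rintro ⟨z, hz, rfl⟩
          refine ⟨z k, z, ?_, rfl⟩
          intro i hi
          rcases Nat.lt_succ_iff_lt_or_eq.1 hi with hi | rfl
          · rw [Function.update_of_ne hi.ne]; exact hz i hi
          · simp
        · rintro ⟨j, z, hz, rfl⟩
          refine ⟨z, ?_, rfl⟩
          intro i hi
          have := hz i (by omega)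
          rwa [Function.update_of_ne hi.ne] at this
      have hmono : Monotone fun j : ℕ => E (k + 1) (Function.update w k j) := by
        intro j j' hjj'
        apply image_mono
        intro z hz i hi
        rcases Nat.lt_succ_iff_lt_or_eq.1 hi with hi' | rfl
        · have := hz i hi
          rw [Function.update_of_ne hi'.ne] at this ⊢
          exact this
        · have := hz i hi
          simp only [Function.update_self] at this ⊢
          exact this.trans hjj'
      rw [hun, hmono.measure_iUnion] at hk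
      exact lt_iSup_iff.1 hk
  -- the compact set
  let K : Set (ℕ → ℕ) := {z | ∀ i, z i ≤ w i}
  have hK : IsCompact K := by
    have : K = Set.pi Set.univ fun i => Iic (w i) := by
      ext z; simp [K, Pi.le_def]
    rw [this]
    exact isCompact_univ_pi fun i => (finite_Iic (w i)).isCompact
  have hsub : (⋂ k, closure (E k w)) ⊆ g '' K := by
    intro y hy
    let := TopologicalSpace.upgradeIsCompletelyMetrizable Y
    have h1 : ∀ k : ℕ, ∃ z : ℕ → ℕ, (∀ i < k, z i ≤ w i) ∧ dist (g z) y < 1 / ((k : ℝ) + 1) := by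
      intro k
      have hyk : y ∈ closure (E k w) := mem_iInter.1 hy k
      rw [Metric.mem_closure_iff] at hyk
      obtain ⟨b, ⟨z, hz, rfl⟩, hb⟩ := hyk (1 / ((k : ℝ) + 1)) (by positivity)
      exact ⟨z, hz, by rwa [dist_comm]⟩
    choose z hz hzd using h1
    let z' : ℕ → ℕ → ℕ := fun k i => min (z k i) (w i)
    have hz' : ∀ k, z' k ∈ K := fun k i => min_le_right _ _
    obtain ⟨a, haK, θ, hθ, hlim⟩ := hK.tendsto_subseq hz'
    have hlim2 : Tendsto (fun k => z (θ k)) atTop (𝓝 a) := by
      rw [tendsto_pi_nhds] at hlim ⊢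
      intro i
      refine (hlim i).congr' ?_
      filter_upwards [eventually_gt_atTop i] with k hk
      have : i < θ k := lt_of_lt_of_le hk (hθ.id_le k)
      simp only [Function.comp, z']
      exact min_eq_left (hz _ i this)
    have h3 : Tendsto (fun k => g (z (θ k))) atTop (𝓝 (g a)) := (hg.tendsto a).comp hlim2
    have h4 : Tendsto (fun k => g (z (θ k))) atTop (𝓝 y) := by
      rw [tendsto_iff_dist_tendsto_zero]
      refine squeeze_zero (fun _ => dist_nonneg) (fun k => (hzd (θ k)).le) ?_
      exact tendsto_one_div_add_atTop_nhds_zero_nat.comp hθ.tendsto_atTop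
    exact ⟨a, haK, tendsto_nhds_unique h3 h4⟩
  have hanti : Antitone fun k => closure (E k w) := by
    intro k k' hkk'
    apply closure_mono
    apply image_mono
    intro z hz i hi
    exact hz i (by omega)
  refine ⟨K, hK, le_trans ?_ (measure_mono hsub)⟩
  rw [hanti.measure_iInter (fun k => isClosed_closure.measurableSet.nullMeasurableSet)
    ⟨0, measure_ne_top _ _⟩]
  refine le_iInf fun k => ?_
  exact (hw k).le.trans (measure_mono subset_closure)

/-- Let `A` be an analytic subset of `ω^ω × Y` such that the section unions over the sets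
`{x' | x' ≤ x}` are null. Then the projection of `A` to `Y` is null. -/
theorem cap {Y : Type} [TopologicalSpace Y] [PolishSpace Y] [MeasurableSpace Y] [BorelSpace Y]
    (μ : Measure Y) [IsProbabilityMeasure μ] {A : Set ((ℕ → ℕ) × Y)} (hA : AnalyticSet A)
    (h : ∀ x : ℕ → ℕ, μ {y | ∃ x' ≤ x, (x', y) ∈ A} = 0) : μ {y | ∃ x, (x, y) ∈ A} = 0 := by
  rw [AnalyticSet] at hA
  rcases hA with rfl | ⟨φ, hφ, rfl⟩
  · simp
  by_contra hne
  let g : (ℕ → ℕ) → Y := fun z => (φ z).2
  have hg : Continuous g := continuous_snd.comp hφ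
  have hr : {y | ∃ x, (x, y) ∈ range φ} = range g := by
    ext y
    constructor
    · rintro ⟨x, z, hz⟩
      exact ⟨z, by simp [g, hz]⟩
    · rintro ⟨z, rfl⟩
      exact ⟨(φ z).1, z, rfl⟩
  rw [hr] at hne
  have hmpos : 0 < μ (range g) := pos_iff_ne_zero.2 hne
  have hhalf := ENNReal.half_lt_self hmpos.ne' (measure_ne_top μ _)
  obtain ⟨K, hK, hmeas⟩ := exists_compact μ hg hhalf
  -- bound of the first coordinates
  have hfst : ∃ x : ℕ → ℕ, ∀ z ∈ K, (φ z).1 ≤ x := by
    have : ∀ i : ℕ, ∃ b : ℕ, ∀ z ∈ K, (φ z).1 i ≤ b := by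
      intro i
      have hc : IsCompact ((fun z => (φ z).1 i) '' K) :=
        hK.image ((continuous_apply i).comp (continuous_fst.comp hφ))
      obtain ⟨b, hb⟩ := hc.bddAbove
      exact ⟨b, fun z hz => hb ⟨z, hz, rfl⟩⟩
    choose b hb using this
    exact ⟨b, fun z hz i => hb i z hz⟩
  obtain ⟨x, hx⟩ := hfst
  have hle : g '' K ⊆ {y | ∃ x' ≤ x, (x', y) ∈ range φ} := by
    rintro _ ⟨z, hz, rfl⟩
    exact ⟨(φ z).1, hx z hz, z, rfl⟩
  have : μ (range g) / 2 ≤ 0 := by
    rw [← h x]
    exact hmeas.trans (measure_mono hle)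
  simp only [nonpos_iff_eq_zero, ENNReal.div_eq_zero_iff] at this
  rcases this with h1 | h1
  · exact hne h1
  · exact absurd h1 (by simp)

end Pool.Agent.Helper39.Gold
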