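import Pool.Agent.Helper39.Gold.Cap

/-! # A coanalytic set is a union of `ℵ₁` Borel sets -/

namespace Pool.Agent.Helper39.Gold

open MeasureTheory Cardinal Set Filter Topology Ordinal

/-- The points whose tree has rank at most `α` above the node `(n, w)`. -/
def R {Z : Type} (F : ℕ → (ℕ → ℕ) → Set Z) (α : Ordinal.{0}) (n : ℕ) (w : ℕ → ℕ) : Set Z :=
  {x | ∀ k, x ∉ F (n + 1) (Function.update w n k) ∨
    ∃ β, ∃ _ : β < α, x ∈ R F β (n + 1) (Function.update w n k)}
termination_by α

theorem mem_R {Z : Type} (F : ℕ → (ℕ → ℕ) → Set Z) (α : Ordinal.{0}) (n : ℕ) (w : ℕ → ℕ) (x : Z) :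
    x ∈ R F α n w ↔ ∀ k, x ∉ F (n + 1) (Function.update w n k) ∨
    ∃ β, ∃ _ : β < α, x ∈ R F β (n + 1) (Function.update w n k) := by
  rw [R]
  rfl

theorem countable_Iio_of_lt {α : Ordinal.{0}} (h : α < ω₁) : (Iio α).Countable := by
  rw [← Cardinal.le_aleph0_iff_set_countable, Cardinal.mk_Iio_ordinal, ← lift_aleph0.{1, 0},
    Cardinal.lift_le]
  have h1 : α.card < ℵ₁ := by
    rw [← Cardinal.ord_aleph] at h
    exact Cardinal.lt_ord.1 h
  rw [← Cardinal.succ_aleph0] at h1
  exact Order.lt_succ_iff.1 h1

theorem measurable_R {Z : Type} [TopologicalSpace Z] [MeasurableSpace Z] [BorelSpace Z]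
    (F : ℕ → (ℕ → ℕ) → Set Z) (hF : ∀ n w, IsClosed (F n w)) (α : Ordinal.{0}) :
    α < ω₁ → ∀ n w, MeasurableSet (R F α n w) := by
  induction α using WellFoundedLT.induction with
  | _ α ih =>
    intro hα n w
    have : R F α n w = ⋂ k : ℕ, ((F (n + 1) (Function.update w n k))ᶜ ∪
        ⋃ β ∈ Iio α, R F β (n + 1) (Function.update w n k)) := by
      ext x
      rw [mem_R]
      simp
    rw [this]
    refine MeasurableSet.iInter fun k => ?_
    refine (hF _ _).measurableSet.compl.union ?_
    refine MeasurableSet.biUnion (countable_Iio_of_lt hα) ?_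
    intro β hβ
    exact ih β hβ (lt_trans hβ hα) _ _

/-- A coanalytic set is a union of `ℵ₁` Borel sets. -/
theorem coanalytic_iUnion {Z : Type} [TopologicalSpace Z] [PolishSpace Z] [MeasurableSpace Z]
    [BorelSpace Z] {S : Set Z} (hS : AnalyticSet Sᶜ) :
    ∃ B : Ordinal.{0} → Set Z, (∀ α < ω₁, MeasurableSet (B α)) ∧
      S = ⋃ α ∈ Iio ω₁, B α := by
  rw [AnalyticSet] at hS
  rcases hS with hS | ⟨f, hf, hr⟩
  · refine ⟨fun _ => Set.univ, fun _ _ => MeasurableSet.univ, ?_⟩
    have : S = Set.univ := by simpa using hS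
    rw [this, eq_comm, eq_univ_iff_forall]
    intro x
    simp only [mem_iUnion, mem_univ, exists_prop, and_true]
    exact ⟨0, by simpa using Ordinal.omega_pos 1⟩
  let F : ℕ → (ℕ → ℕ) → Set Z := fun n w => closure (f '' {z | ∀ i < n, z i = w i})
  have hFc : ∀ n w, IsClosed (F n w) := fun n w => isClosed_closure
  have hFd : ∀ n w w', (∀ i < n, w i = w' i) → F n w = F n w' := by
    intro n w w' hw
    have : {z : ℕ → ℕ | ∀ i < n, z i = w i} = {z | ∀ i < n, z i = w' i} := by
      ext z
      constructor
      · intro hz i hi; rw [← hw i hi]; exact hz i hi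
      · intro hz i hi; rw [hw i hi]; exact hz i hi
    simp only [F, this]
  -- a branch determines the point
  have hbr : ∀ x w, (∀ n, x ∈ F (n + 1) w) → x = f w := by
    intro x w hx
    let := TopologicalSpace.upgradeIsCompletelyMetrizable Z
    have h1 : ∀ n : ℕ, ∃ z : ℕ → ℕ, (∀ i < n + 1, z i = w i) ∧
        dist (f z) x < 1 / ((n : ℝ) + 1) := by
      intro n
      have hyk := hx n
      simp only [F] at hyk
      rw [Metric.mem_closure_iff] at hyk
      obtain ⟨b, ⟨z, hz, rfl⟩, hb⟩ := hyk (1 / ((n : ℝ) + 1)) (by positivity)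
      exact ⟨z, hz, by rwa [dist_comm]⟩
    choose z hz hzd using h1
    have hl : Tendsto z atTop (𝓝 w) := by
      rw [tendsto_pi_nhds]
      intro i
      refine tendsto_const_nhds.congr' ?_
      filter_upwards [eventually_gt_atTop i] with n hn
      exact (hz n i (by omega)).symm
    have h3 : Tendsto (fun k => f (z k)) atTop (𝓝 (f w)) := (hf.tendsto w).comp hl
    have h4 : Tendsto (fun k => f (z k)) atTop (𝓝 x) := by
      rw [tendsto_iff_dist_tendsto_zero]
      refine squeeze_zero (fun _ => dist_nonneg) (fun k => (hzd k).le) ?_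
      exact tendsto_one_div_add_atTop_nhds_zero_nat
    exact tendsto_nhds_unique h4 h3
  refine ⟨fun α => R F α 0 0, fun α hα => measurable_R F hFc α hα 0 0, ?_⟩
  ext x
  constructor
  · intro hx
    by_contra hno
    have hno' : ∀ α < ω₁, x ∉ R F α 0 0 := by
      intro α hα h
      exact hno (mem_biUnion (show α ∈ Iio ω₁ from hα) h)
    have hRd : ∀ α n w w', (∀ i < n, w i = w' i) → R F α n w = R F α n w' := by
      intro α
      induction α using WellFoundedLT.induction with
      | _ α ih =>
        intro n w w' hw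
        have hu : ∀ k, ∀ i < n + 1, Function.update w n k i = Function.update w' n k i := by
          intro k i hi
          rcases Nat.lt_succ_iff_lt_or_eq.1 hi with hi | rfl
          · rw [Function.update_of_ne hi.ne, Function.update_of_ne hi.ne]; exact hw i hi
          · simp
        ext x
        rw [mem_R, mem_R]
        refine forall_congr' fun k => ?_
        rw [hFd _ _ _ (hu k)]
        refine or_congr Iff.rfl (exists_congr fun β => exists_congr fun hβ => ?_)
        rw [ih β hβ _ _ _ (hu k)]
    obtain ⟨w, hw⟩ : ∃ w : ℕ → ℕ, ∀ k, ((1 ≤ k → x ∈ F k w) ∧ ∀ α < ω₁, x ∉ R F α k w) := by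
      apply exists_seq_update
        (P := fun k w => ((1 ≤ k → x ∈ F k w) ∧ ∀ α < ω₁, x ∉ R F α k w))
      · exact ⟨fun h => absurd h (by omega), hno'⟩
      · intro k w w' hww' h
        rw [← hFd k w w' hww']
        refine ⟨h.1, fun α hα => ?_⟩
        rw [← hRd α k w w' hww']
        exact h.2 α hα
      · rintro k w ⟨-, h⟩
        by_contra hcon
        push Not at hcon
        have h2 : ∀ j, ∃ α < ω₁, x ∉ F (k + 1) (Function.update w k j) ∨
            x ∈ R F α (k + 1) (Function.update w k j) := by
          intro j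
          by_cases hj : x ∈ F (k + 1) (Function.update w k j)
          · obtain ⟨α, hα, h3⟩ := hcon j (fun _ => hj)
            exact ⟨α, hα, Or.inr h3⟩
          · exact ⟨0, by simpa using Ordinal.omega_pos 1, Or.inl hj⟩
        choose α hα h3 using h2
        have hsup : iSup α < ω₁ := Ordinal.iSup_lt_omega_one hα
        have hsup' : Order.succ (iSup α) < ω₁ := by
          have := (Cardinal.isSuccLimit_omega 1).succ_lt hsup
          simpa using this
        refine h _ hsup' ?_
        rw [mem_R]
        intro j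
        rcases h3 j with h4 | h4
        · exact Or.inl h4
        · refine Or.inr ⟨α j, ?_, h4⟩
          exact Order.lt_succ_of_le (le_ciSup Ordinal.bddAbove_of_small j)
    have : x = f w := hbr x w fun n => (hw (n + 1)).1 (by omega)
    have h5 : x ∈ Sᶜ := by rw [← hr, this]; exact mem_range_self w
    exact h5 hx
  · intro hx
    by_contra hxS
    have hxS' : x ∈ range f := by rw [hr]; exact hxS
    obtain ⟨w, rfl⟩ := hxS'
    have hall : ∀ α : Ordinal.{0}, ∀ n w', (∀ i < n, w' i = w i) → f w ∉ R F α n w' := by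
      intro α
      induction α using WellFoundedLT.induction with
      | _ α ih =>
        intro n w' hw' hmem
        rw [mem_R] at hmem
        have hupd : ∀ i < n + 1, Function.update w' n (w n) i = w i := by
          intro i hi
          rcases Nat.lt_succ_iff_lt_or_eq.1 hi with hi | rfl
          · rw [Function.update_of_ne hi.ne]; exact hw' i hi
          · simp
        rcases hmem (w n) with h1 | ⟨β, hβ, h1⟩
        · apply h1
          rw [hFd _ _ _ hupd]
          exact subset_closure ⟨w, fun i _ => rfl, rfl⟩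
        · exact ih β hβ (n + 1) _ hupd h1
    simp only [mem_iUnion] at hx
    obtain ⟨α, _, h⟩ := hx
    exact hall α 0 0 (by simp) h

end Pool.Agent.Helper39.Gold
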