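import Pool.Agent.Helper39.Gold.Coan

/-! # `GP(Σ¹₂)` if unions of `ℵ₁` null sets are null -/

namespace Pool.Agent.Helper39.Gold

open MeasureTheory Cardinal Set Filter Topology Ordinal

theorem gp_one : GP 1 := by
  intro Y _ _ _ _ μ _ A hA hnull hmono
  refine cap μ hA fun x => ?_
  refine measure_mono_null ?_ (hnull x)
  rintro y ⟨x', hx', hy⟩
  exact hmono x' x hx' hy

theorem gp_two (hadd : ∀ (Y : Type) [TopologicalSpace Y] [PolishSpace Y] [MeasurableSpace Y]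
    [BorelSpace Y] (μ : Measure Y) [IsProbabilityMeasure μ] (𝒩 : Set (Set Y)),
    #𝒩 ≤ ℵ₁ → (∀ N ∈ 𝒩, μ N = 0) → μ (⋃₀ 𝒩) = 0) : GP 2 := by
  intro Y _ _ _ _ μ _ A hA hnull hmono
  obtain ⟨B, hB, hAB⟩ := hA
  borelize ((ℕ → ℕ) × Y × (ℕ → ℕ))
  borelize (((ℕ → ℕ) × Y) × (ℕ → ℕ))
  obtain ⟨C, hC, hBC⟩ := coanalytic_iUnion (S := B) hB
  let N : Ordinal.{0} → Set Y := fun α => {y | ∃ x, (x, y) ∈ Prod.fst '' C α}
  have hN : ∀ α ∈ Iio ω₁, μ (N α) = 0 := by
    intro α hα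
    have han : AnalyticSet (Prod.fst '' C α) :=
      (hC α hα).analyticSet.image_of_continuous continuous_fst
    refine cap μ han fun x => ?_
    refine measure_mono_null ?_ (hnull x)
    rintro y ⟨x', hx', hy⟩
    refine hmono x' x hx' ?_
    have : Prod.fst '' C α ⊆ A := by
      rw [hAB, hBC]
      apply image_mono
      exact subset_biUnion_of_mem hα
    exact this hy
  have hle : {y | ∃ x, (x, y) ∈ A} ⊆ ⋃₀ (N '' Iio ω₁) := by
    rintro y ⟨x, hy⟩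
    rw [hAB, hBC, image_iUnion₂] at hy
    simp only [mem_iUnion] at hy
    obtain ⟨α, hα, hy⟩ := hy
    exact ⟨N α, ⟨α, hα, rfl⟩, x, hy⟩
  refine measure_mono_null hle (hadd Y μ _ ?_ ?_)
  · have h1 := Cardinal.mk_image_le_lift (f := N) (s := Iio ω₁)
    rw [Cardinal.mk_Iio_ordinal] at h1
    simpa using h1
  · rintro _ ⟨α, hα, rfl⟩
    exact hN α hα

end Pool.Agent.Helper39.Gold
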