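import Pool.Agent.Helper39.Gold.Defs

/-! # Consequences of Martin's axiom -/

namespace Pool.Agent.Helper39.Gold

open MeasureTheory Cardinal Set Filter Topology

/-- The amoeba partial order: open sets of measure less than `ε`, larger sets are stronger. -/
def Am {Y : Type} [TopologicalSpace Y] [MeasurableSpace Y] (μ : Measure Y) (ε : ENNReal) : Type :=
  {U : Set Y // IsOpen U ∧ μ U < ε}

instance {Y : Type} [TopologicalSpace Y] [MeasurableSpace Y] (μ : Measure Y) (ε : ENNReal) :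
    PartialOrder (Am μ ε) where
  le U V := V.1 ⊆ U.1
  le_refl U := subset_rfl
  le_trans U V W h h' := h'.trans h
  le_antisymm U V h h' := Subtype.ext (Subset.antisymm h' h)

theorem Am.le_def {Y : Type} [TopologicalSpace Y] [MeasurableSpace Y] {μ : Measure Y} {ε : ENNReal}
    (U V : Am μ ε) : U ≤ V ↔ V.1 ⊆ U.1 := Iff.rfl

theorem Am.ccc {Y : Type} [TopologicalSpace Y] [PolishSpace Y] [MeasurableSpace Y] [BorelSpace Y]
    (μ : Measure Y) [IsProbabilityMeasure μ] (ε : ENNReal) : CCC (Am μ ε) := by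
  intro 𝒜 h𝒜
  obtain ⟨b, hbc, -, hb⟩ := TopologicalSpace.exists_countable_basis Y
  -- finite unions of basic sets
  let 𝓕 : Set (Set Y) := (fun s : Finset (Set Y) => ⋃₀ (s : Set (Set Y))) '' {s | ↑s ⊆ b}
  have h𝓕c : 𝓕.Countable := (countable_setOf_finite_subset hbc |>.preimage_of_injOn
    (f := fun s : Finset (Set Y) => (s : Set (Set Y))) (by
      intro s _ t _ h; exact Finset.coe_injective h)).mono (by
        intro s hs; exact ⟨s.finite_toSet, hs⟩) |>.image _
  have key : ∀ U : Am μ ε, ∃ F ∈ 𝓕, ∃ q : ℚ, F ⊆ U.1 ∧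
      μ (U.1 \ F) < ENNReal.ofReal q ∧ μ U.1 + ENNReal.ofReal q < ε := by
    rintro ⟨U, hUo, hUε⟩
    obtain ⟨r, hr0, hr⟩ := ENNReal.lt_iff_exists_add_pos_lt.1 hUε
    obtain ⟨q, hq0, hqr⟩ := exists_rat_btwn (show (0 : ℝ) < r by exact_mod_cast hr0)
    have hqr' : ENNReal.ofReal q ≤ r := by
      rw [← ENNReal.ofReal_coe_nnreal]
      exact ENNReal.ofReal_le_ofReal hqr.le
    have hq1 : (0 : ENNReal) < ENNReal.ofReal q := ENNReal.ofReal_pos.2 hq0
    suffices hF : ∃ F ∈ 𝓕, F ⊆ U ∧ μ (U \ F) < ENNReal.ofReal q by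
      obtain ⟨F, h1, h2, h3⟩ := hF
      exact ⟨F, h1, q, h2, h3, lt_of_le_of_lt (by gcongr) hr⟩
    have hUeq : U = ⋃₀ {B ∈ b | B ⊆ U} := hb.open_eq_sUnion' hUo
    rcases ({B ∈ b | B ⊆ U}).eq_empty_or_nonempty with he | hne
    · refine ⟨∅, ⟨∅, by simp, by simp⟩, by simp, ?_⟩
      rw [hUeq, he]
      simpa using hq1
    · obtain ⟨g, hg⟩ := (hbc.mono (sep_subset b fun B => B ⊆ U)).exists_eq_range hne
      have hg1 : ∀ n, g n ∈ b ∧ g n ⊆ U := by
        intro n
        have : g n ∈ {B ∈ b | B ⊆ U} := by rw [hg]; exact mem_range_self n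
        exact this
      let V : ℕ → Set Y := fun n => ⋃₀ (((Finset.range n).image g : Finset (Set Y)) : Set (Set Y))
      have hVU : ∀ n, V n ⊆ U := by
        intro n
        apply sUnion_subset
        intro B hB
        simp only [Finset.coe_image, mem_image] at hB
        obtain ⟨i, _, rfl⟩ := hB
        exact (hg1 i).2
      have hVm : ∀ n, IsOpen (V n) := by
        intro n
        apply isOpen_sUnion
        intro B hB
        simp only [Finset.coe_image, mem_image] at hB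
        obtain ⟨i, _, rfl⟩ := hB
        exact hb.isOpen (hg1 i).1
      have hanti : Antitone fun n => U \ V n := by
        intro n m hnm
        apply diff_subset_diff_right
        apply sUnion_subset_sUnion
        intro B hB
        simp only [Finset.coe_image, mem_image, Finset.coe_range, mem_Iio] at hB ⊢
        obtain ⟨i, hi, rfl⟩ := hB
        exact ⟨i, by omega, rfl⟩
      have hlim := tendsto_measure_iInter_atTop (μ := μ)
        (fun n => (hUo.measurableSet.diff (hVm n).measurableSet).nullMeasurableSet) hanti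
        ⟨0, measure_ne_top _ _⟩
      have hemp : (⋂ n, U \ V n) = ∅ := by
        rw [eq_empty_iff_forall_notMem]
        intro y hy
        rw [mem_iInter] at hy
        have hyU := (hy 0).1
        rw [hUeq, hg] at hyU
        obtain ⟨_, ⟨i, rfl⟩, hyi⟩ := hyU
        apply (hy (i + 1)).2
        refine ⟨g i, ?_, hyi⟩
        simp only [Finset.coe_image, mem_image, Finset.coe_range, mem_Iio]
        exact ⟨i, by omega, rfl⟩
      rw [hemp, measure_empty] at hlim
      obtain ⟨n, hn⟩ := (hlim.eventually (gt_mem_nhds hq1)).exists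
      refine ⟨V n, ⟨(Finset.range n).image g, ?_, rfl⟩, hVU n, hn⟩
      intro B hB
      simp only [Finset.coe_image, mem_image] at hB
      obtain ⟨i, _, rfl⟩ := hB
      exact (hg1 i).1
  choose F hF q hFU hq hqe using key
  have hinj : InjOn (fun U => (F U, q U)) 𝒜 := by
    intro U hU V hV hUV
    simp only [Prod.mk.injEq] at hUV
    by_contra hne
    refine h𝒜 U hU V hV hne ?_
    have hlt : μ (U.1 ∪ V.1) < ε := by
      have h1 : U.1 ∪ V.1 ⊆ U.1 ∪ (V.1 \ F V) := by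
        rintro y (hy | hy)
        · exact Or.inl hy
        · by_cases hyF : y ∈ F V
          · rw [← hUV.1] at hyF
            exact Or.inl (hFU U hyF)
          · exact Or.inr ⟨hy, hyF⟩
      calc μ (U.1 ∪ V.1) ≤ μ (U.1 ∪ (V.1 \ F V)) := measure_mono h1
        _ ≤ μ U.1 + μ (V.1 \ F V) := measure_union_le _ _
        _ ≤ μ U.1 + ENNReal.ofReal (q V) := by gcongr; exact (hq V).le
        _ = μ U.1 + ENNReal.ofReal (q U) := by rw [hUV.2]
        _ < ε := hqe U
    exact ⟨⟨U.1 ∪ V.1, U.2.1.union V.2.1, hlt⟩, subset_union_left, subset_union_right⟩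
  have : (MapsTo (fun U => (F U, q U)) 𝒜 (𝓕 ×ˢ (Set.univ : Set ℚ))) := by
    intro U _
    exact ⟨hF U, mem_univ _⟩
  exact this.countable_of_injOn hinj (h𝓕c.prod countable_univ)

/-- Under Martin's axiom a union of fewer than continuum many null sets is null. -/
theorem null_of_ma (hMA : MA) {Y : Type} [TopologicalSpace Y] [PolishSpace Y] [MeasurableSpace Y]
    [BorelSpace Y] (μ : Measure Y) [IsProbabilityMeasure μ] (𝒩 : Set (Set Y)) (hc : #𝒩 < 𝔠)
    (h : ∀ N ∈ 𝒩, μ N = 0) : μ (⋃₀ 𝒩) = 0 := by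
  rw [← nonpos_iff_eq_zero]
  refine le_of_forall_gt_imp_ge_of_dense fun ε hε => ?_
  have : Nonempty (Am μ ε) := ⟨⟨∅, isOpen_empty, by simpa using hε⟩⟩
  obtain ⟨G, hGne, -, hGd, hG⟩ := hMA (Am μ ε) (Am.ccc μ ε)
    ((fun N : Set Y => {U : Am μ ε | N ⊆ U.1}) '' 𝒩) (Cardinal.mk_image_le.trans_lt hc) (by
      rintro _ ⟨N, hN, rfl⟩ U
      obtain ⟨r, hr0, hr⟩ := ENNReal.lt_iff_exists_add_pos_lt.1 U.2.2
      obtain ⟨V, hNV, hV, hVr⟩ := N.exists_isOpen_lt_of_lt (μ := μ) (r : ENNReal)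
        (by rw [h N hN]; exact_mod_cast hr0)
      refine ⟨⟨U.1 ∪ V, U.2.1.union hV, ?_⟩, hNV.trans subset_union_right, subset_union_left⟩
      calc μ (U.1 ∪ V) ≤ μ U.1 + μ V := measure_union_le _ _
        _ ≤ μ U.1 + r := by gcongr
        _ < ε := hr)
  obtain ⟨T, hTc, hT⟩ := TopologicalSpace.isOpen_iUnion_countable (fun U : G => U.1.1)
    (fun U => U.1.2.1)
  obtain ⟨p, hp⟩ := hGne
  obtain ⟨u, hu⟩ := (hTc.insert (⟨p, hp⟩ : G)).exists_eq_range (insert_nonempty _ _)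
  have hd : ∀ U V : G, ∃ W : G, U.1.1 ⊆ W.1.1 ∧ V.1.1 ⊆ W.1.1 := by
    rintro ⟨U, hU⟩ ⟨V, hV⟩
    obtain ⟨W, hW, h1, h2⟩ := hGd U hU V hV
    exact ⟨⟨W, hW⟩, h1, h2⟩
  choose j hj1 hj2 using hd
  let v : ℕ → G := fun n => Nat.rec (u 0) (fun n v => j v (u n)) n
  have hv : ∀ n, v (n + 1) = j (v n) (u n) := fun n => rfl
  have hvm : Monotone fun n => (v n).1.1 := by
    refine monotone_nat_of_le_succ fun n => ?_
    rw [hv]; exact hj1 _ _
  have hcov : ⋃₀ 𝒩 ⊆ ⋃ n, (v n).1.1 := by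
    rintro y ⟨N, hN, hy⟩
    obtain ⟨U, hUG, hU⟩ := hG _ (mem_image_of_mem _ hN)
    have hy1 : y ∈ ⋃ U : G, U.1.1 := mem_iUnion.2 ⟨⟨U, hUG⟩, hU hy⟩
    rw [← hT] at hy1
    simp only [mem_iUnion] at hy1
    obtain ⟨V, hVT, hyV⟩ := hy1
    have : V ∈ range u := by rw [← hu]; exact mem_insert_of_mem _ hVT
    obtain ⟨n, rfl⟩ := this
    refine mem_iUnion.2 ⟨n + 1, ?_⟩
    rw [hv]
    exact hj2 _ _ hyV
  calc μ (⋃₀ 𝒩) ≤ μ (⋃ n, (v n).1.1) := measure_mono hcov
    _ = ⨆ n, μ (v n).1.1 := hvm.measure_iUnion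
    _ ≤ ε := iSup_le fun n => (v n).1.2.2.le

end Pool.Agent.Helper39.Gold
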