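import Pool.Agent.Helper39.Gold.Bdd
import Pool.Agent.Helper39.Gold.GP2
import Pool.Agent.Helper39.Gold.MAx

/-! # Separation of Goldstern's principle at successive projective levels -/

namespace Pool.Agent.Helper39.Gold

open MeasureTheory Cardinal Set Filter Topology

/-- A shortcut for instance search. -/
theorem polish_prod {X Z : Type} [TopologicalSpace X] [TopologicalSpace Z] [PolishSpace X]
    [PolishSpace Z] : PolishSpace (X × Z) := inferInstance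

theorem gp_two_of_addN (h : ℵ₁ < addN) : GP 2 :=
  gp_two fun _ _ _ _ _ μ _ _ hc hN => null_polish μ (hc.trans_lt h) hN

theorem addN_le : addN ≤ 𝔠 := by
  refine csInf_le' ?_
  refine ⟨range (fun x : ℝ => {x}), ?_, ?_, ?_⟩
  · rw [Cardinal.mk_range_eq _ (fun x y h => by simpa using h), Cardinal.mk_real]
  · rintro _ ⟨x, rfl⟩
    simp
  · have : ⋃₀ range (fun x : ℝ => ({x} : Set ℝ)) = Set.univ := by
      ext x; simp
    rw [this]
    simp

theorem addN_eq_of_ma (hMA : MA) : addN = 𝔠 := by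
  refine le_antisymm addN_le (le_addN fun 𝒩 hc hN => ?_)
  -- every bounded piece is null
  have h1 : ∀ k : ℤ, volume (⋃₀ 𝒩 ∩ Ico (k : ℝ) (k + 1)) = 0 := by
    intro k
    let μ : Measure ℝ := volume.restrict (Ico (k : ℝ) (k + 1))
    have hμ : IsProbabilityMeasure μ := ⟨by simp [μ]⟩
    have h2 : μ (⋃₀ 𝒩) = 0 := null_of_ma hMA μ 𝒩 hc fun N hN' =>
      Measure.absolutelyContinuous_of_le Measure.restrict_le_self (hN N hN')
    rwa [Measure.restrict_apply' measurableSet_Ico] at h2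
  have h2 : ⋃₀ 𝒩 ⊆ ⋃ k : ℤ, (⋃₀ 𝒩 ∩ Ico (k : ℝ) (k + 1)) := by
    intro y hy
    refine mem_iUnion.2 ⟨⌊y⌋, hy, Int.floor_le y, Int.lt_floor_add_one y⟩
  exact measure_mono_null h2 (measure_iUnion_null h1)

/-- There is an atomless Borel probability measure on `ω^ω`. -/
theorem exists_atomless : ∃ μ : Measure (ℕ → ℕ), IsProbabilityMeasure μ ∧ ∀ z, μ {z} = 0 := by
  have h1 : ¬ Countable unitInterval := by
    rw [← Cardinal.mk_le_aleph0_iff, Cardinal.mk_Icc_real (by norm_num : (0 : ℝ) < 1), not_le]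
    exact Cardinal.aleph0_lt_continuum
  have h2 : ¬ Countable (ℕ → ℕ) := by
    rw [← Cardinal.mk_le_aleph0_iff, not_le]
    simpa using Cardinal.aleph0_lt_continuum
  let e : unitInterval ≃ᵐ (ℕ → ℕ) := PolishSpace.measurableEquivOfNotCountable h1 h2
  refine ⟨volume.map e, Measure.isProbabilityMeasure_map e.measurable.aemeasurable, fun z => ?_⟩
  rw [Measure.map_apply e.measurable (measurableSet_singleton z)]
  have : e ⁻¹' {z} = {e.symm z} := by
    ext t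
    simp [MeasurableEquiv.eq_symm_apply]
  rw [this]
  simp

theorem small_of_card (r : (ℕ → ℕ) → (ℕ → ℕ) → Prop) (h : ∀ y, #{z | r z y} < addN) :
    SmallSegments r := by
  refine ⟨fun y => ?_, ?_⟩
  · obtain ⟨x, hx⟩ := bdd_of_lt_addN (h y)
    exact ⟨x, fun z hz => hx z hz⟩
  · obtain ⟨μ, hμ, h0⟩ := exists_atomless
    refine ⟨μ, hμ, fun y => ?_⟩
    have := null_polish μ (𝒩 := (fun z => {z}) '' {z | r z y}) (Cardinal.mk_image_le.trans_lt (h y))
      (by rintro _ ⟨z, -, rfl⟩; exact h0 z)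
    refine measure_mono_null ?_ this
    intro z hz
    exact ⟨{z}, ⟨z, hz, rfl⟩, rfl⟩

theorem measurable_dom : MeasurableSet {p : (ℕ → ℕ) × (ℕ → ℕ) | ∀ᶠ n in atTop, p.2 n ≤ p.1 n} := by
  have : {p : (ℕ → ℕ) × (ℕ → ℕ) | ∀ᶠ n in atTop, p.2 n ≤ p.1 n} =
      ⋃ N : ℕ, ⋂ n : ℕ, ⋂ _ : N ≤ n, {p | p.2 n ≤ p.1 n} := by
    ext p
    simp [eventually_atTop]
  rw [this]
  refine MeasurableSet.iUnion fun N => MeasurableSet.iInter fun n => MeasurableSet.iInter fun _ => ?_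
  exact measurableSet_le (by fun_prop) (by fun_prop)

theorem aleph_one_le_addN : ℵ₁ ≤ addN := by
  refine le_addN fun 𝒩 hc hN => ?_
  rw [← Cardinal.succ_aleph0, Order.lt_succ_iff, Cardinal.le_aleph0_iff_set_countable] at hc
  exact (measure_sUnion_null_iff hc).2 hN

theorem small_of_countable (r : (ℕ → ℕ) → (ℕ → ℕ) → Prop) (h : ∀ y, {z | r z y}.Countable) :
    SmallSegments r := by
  refine small_of_card r fun y => lt_of_lt_of_le ?_ aleph_one_le_addN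
  rw [← Cardinal.succ_aleph0, Order.lt_succ_iff, Cardinal.le_aleph0_iff_set_countable]
  exact h y

/-- The counterexample attached to a relation. -/
def AR {Y : Type} (R : Set (Y × (ℕ → ℕ))) : Set ((ℕ → ℕ) × Y) :=
  {p | ∀ z, (p.2, z) ∈ R → ∀ᶠ n in atTop, z n ≤ p.1 n}

theorem not_gp_of_AR {n : ℕ} {Y : Type} [TopologicalSpace Y] [PolishSpace Y] [MeasurableSpace Y]
    [BorelSpace Y] (μ : Measure Y) [IsProbabilityMeasure μ] (R : Set (Y × (ℕ → ℕ)))
    (hb : ∀ y, ∃ x : ℕ → ℕ, ∀ z, (y, z) ∈ R → ∀ᶠ n in atTop, z n ≤ x n)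
    (h0 : ∀ x : ℕ → ℕ, μ {y | ∀ z, (y, z) ∈ R → ∀ᶠ n in atTop, z n ≤ x n} = 0)
    (hA : IsSig n (AR R)) : ¬ GP n := by
  intro hGP
  have h1 := hGP Y μ (AR R) hA h0 ?_
  · have : {y | ∃ x, (x, y) ∈ AR R} = Set.univ := by
      rw [eq_univ_iff_forall]
      exact hb
    rw [this, measure_univ] at h1
    exact one_ne_zero h1
  · intro x x' hxx' y hy z hz
    exact (hy z hz).mono fun n hn => hn.trans (hxx' n)

theorem not_gp_of_rel {m : ℕ} {Y : Type} [TopologicalSpace Y] [PolishSpace Y] [MeasurableSpace Y]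
    [BorelSpace Y] (μ : Measure Y) [IsProbabilityMeasure μ] (R : Set (Y × (ℕ → ℕ)))
    (hR : IsSig m R)
    (hb : ∀ y, ∃ x : ℕ → ℕ, ∀ z, (y, z) ∈ R → ∀ᶠ n in atTop, z n ≤ x n)
    (h0 : ∀ x : ℕ → ℕ, μ {y | ∀ z, (y, z) ∈ R → ∀ᶠ n in atTop, z n ≤ x n} = 0) :
    ¬ GP (m + 1) := by
  have hm : 1 ≤ m := by
    rcases m with _ | m
    · exact hR.elim
    · omega
  have hP0 : PolishSpace ((ℕ → ℕ) × Y) := polish_prod
  have hP1 : PolishSpace (Y × (ℕ → ℕ)) := polish_prod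
  have hP : PolishSpace (((ℕ → ℕ) × Y) × (ℕ → ℕ)) := polish_prod
  refine not_gp_of_AR μ R hb h0 (isSig_succ_of_compl hm ?_)
  have h1 : IsSig m {q : ((ℕ → ℕ) × Y) × (ℕ → ℕ) | (q.1.2, q.2) ∈ R} :=
    hR.preimage (f := fun q : ((ℕ → ℕ) × Y) × (ℕ → ℕ) => (q.1.2, q.2)) (by fun_prop)
  have h3 : IsSig m {q : ((ℕ → ℕ) × Y) × (ℕ → ℕ) | ¬ ∀ᶠ n in atTop, q.2 n ≤ q.1.1 n} := by
    refine isSig_of_measurable hm ?_
    exact (measurable_dom.preimage (f := fun q : ((ℕ → ℕ) × Y) × (ℕ → ℕ) => (q.1.1, q.2))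
      (by fun_prop)).compl
  have h4 := (h1.union_inter h3).2.proj
  convert h4 using 1
  ext ⟨x, y⟩
  constructor
  · intro h
    by_contra h'
    apply h
    intro z hz
    by_contra hz'
    exact h' ⟨((x, y), z), ⟨hz, hz'⟩, rfl⟩
  · rintro ⟨⟨⟨x', y'⟩, z⟩, ⟨hz, hz'⟩, heq⟩ h
    simp only [Prod.mk.injEq] at heq
    obtain ⟨rfl, rfl⟩ := heq
    exact hz' (h z hz)

/-- The relation attached to a well-order. -/
def RW (r : (ℕ → ℕ) → (ℕ → ℕ) → Prop) : Set ((ℕ → ℕ) × (ℕ → ℕ)) :=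
  {p | r p.2 p.1 ∨ p.2 = p.1}

theorem RW_bdd (r : (ℕ → ℕ) → (ℕ → ℕ) → Prop) (hs : SmallSegments r) :
    ∀ y, ∃ x : ℕ → ℕ, ∀ z, (y, z) ∈ RW r → ∀ᶠ n in atTop, z n ≤ x n := by
  intro y
  obtain ⟨x, hx⟩ := hs.1 y
  refine ⟨fun n => max (x n) (y n), ?_⟩
  rintro z (hz | hz)
  · exact (hx z hz).mono fun n hn => hn.trans (le_max_left _ _)
  · have hz' : z = y := hz
    subst hz'
    exact Eventually.of_forall fun n => le_max_right _ _

theorem RW_null (r : (ℕ → ℕ) → (ℕ → ℕ) → Prop) [IsWellOrder (ℕ → ℕ) r] {μ : Measure (ℕ → ℕ)}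
    (h0 : ∀ y, μ {z | r z y} = 0) :
    ∀ x : ℕ → ℕ, μ {y | ∀ z, (y, z) ∈ RW r → ∀ᶠ n in atTop, z n ≤ x n} = 0 := by
  intro x
  refine measure_mono_null ?_ (h0 (fun n => x n + 1))
  intro y hy
  rcases trichotomous_of r y (fun n => x n + 1) with h | h | h
  · exact h
  · exfalso
    obtain ⟨n, hn⟩ := (hy (fun n => x n + 1) (Or.inr h.symm)).exists
    simp at hn
  · exfalso
    obtain ⟨n, hn⟩ := (hy (fun n => x n + 1) (Or.inl h)).exists
    simp at hn

theorem pos_of_isSig {m : ℕ} {X : Type} [TopologicalSpace X] {A : Set X} (h : IsSig m A) :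
    1 ≤ m := by
  rcases m with _ | m
  · exact h.elim
  · omega

theorem not_gp_succ {m : ℕ} (r : (ℕ → ℕ) → (ℕ → ℕ) → Prop) [IsWellOrder (ℕ → ℕ) r]
    (hr : IsSig m {p : (ℕ → ℕ) × (ℕ → ℕ) | r p.1 p.2}) (hs : SmallSegments r) :
    ¬ GP (m + 1) := by
  obtain ⟨μ, hμ, h0⟩ := hs.2
  refine not_gp_of_rel μ (RW r) ?_ (RW_bdd r hs) (RW_null r h0)
  have h1 : IsSig m {p : (ℕ → ℕ) × (ℕ → ℕ) | r p.2 p.1} :=
    hr.preimage (f := fun p : (ℕ → ℕ) × (ℕ → ℕ) => (p.2, p.1)) (by fun_prop)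
  have h2 : IsSig m {p : (ℕ → ℕ) × (ℕ → ℕ) | p.2 = p.1} :=
    isSig_of_measurable (pos_of_isSig hr) (isClosed_eq (by fun_prop) (by fun_prop)).measurableSet
  exact (h1.union_inter h2).1

theorem not_gp_good {m : ℕ} (r : (ℕ → ℕ) → (ℕ → ℕ) → Prop) [IsWellOrder (ℕ → ℕ) r]
    (hm : 1 ≤ m) (hg : Good m r) (hs : SmallSegments r) : ¬ GP m := by
  obtain ⟨μ, hμ, h0⟩ := hs.2
  refine not_gp_of_AR μ (RW r) (RW_bdd r hs) (RW_null r h0) ?_
  have h1 := isSig_of_measurable hm measurable_dom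
  have h2 := (h1.union_inter (hg _ h1)).2
  convert h2 using 1
  ext p
  constructor
  · intro h
    exact ⟨h _ (Or.inr rfl), fun z hz => h z (Or.inl hz)⟩
  · rintro ⟨ha, hb⟩ z (hz | hz)
    · exact hb z hz
    · have hz' : z = p.2 := hz
      rw [hz']; exact ha

theorem gp_zero : GP 0 := fun _ _ _ _ _ _ _ _ h => h.elim

theorem separation {k M : ℕ} (hk : GP k) (hM : ¬ GP M) (hmono : ∀ n, GP (n + 1) → GP n) :
    ∃ n, k ≤ n ∧ n < M ∧ GP n ∧ ¬ GP (n + 1) := by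
  have hmono' : ∀ a b, a ≤ b → GP b → GP a := by
    intro a b hab
    induction b, hab using Nat.le_induction with
    | base => exact id
    | succ b _ ih => exact fun h => ih (hmono b h)
  have hkM : k < M := by
    by_contra h
    exact hM (hmono' M k (not_lt.1 h) hk)
  classical
  have hex : ∃ N, ¬ GP N := ⟨M, hM⟩
  have hN := Nat.find_spec hex
  have hmin := fun {a} => Nat.find_min (m := a) hex
  have hle : Nat.find hex ≤ M := Nat.find_min' hex hM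
  have hk' : k < Nat.find hex := by
    by_contra h
    exact hN (hmono' _ k (not_lt.1 h) hk)
  refine ⟨Nat.find hex - 1, by omega, by omega, ?_, ?_⟩
  · by_contra h
    exact hmin (by omega) h
  · rw [Nat.sub_add_cancel (by omega)]
    exact hN

theorem gp_of_succ (n : ℕ) (h : GP (n + 1)) : GP n :=
  fun Y _ _ _ _ μ _ A hA h1 h2 => h Y μ A hA.succ h1 h2

end Pool.Agent.Helper39.Gold
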