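import Pool.Agent.Helper39.Gold.CovDefs
import Pool.Agent.Helper39.Gold.Main

/-! # Goldstern's principle and covering by meagre sets -/

namespace Pool.Agent.Helper39.Gold

open MeasureTheory Cardinal Set Filter Topology

/-- Fewer than `cov(ℳ)` meagre sets do not cover the Baire space. -/
theorem exists_notMem_of_lt_covM {𝓜 : Set (Set (ℕ → ℕ))} (hc : #𝓜 < covM)
    (h : ∀ M ∈ 𝓜, IsMeagre M) : ∃ g : ℕ → ℕ, ∀ M ∈ 𝓜, g ∉ M := by
  by_contra hcon
  push Not at hcon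
  refine (notMem_of_lt_csInf hc (OrderBot.bddBelow _)) ⟨𝓜, rfl, h, ?_⟩
  rw [eq_univ_iff_forall]
  intro g
  obtain ⟨M, hM, hg⟩ := hcon g
  exact ⟨M, hM, hg⟩

/-- Sets of size less than `cov(ℳ)` have Rothberger's property. -/
theorem rothberger_of_card {C : Set (ℕ → ℕ)} (hC : #C < covM) : Rothberger C := by
  intro U hU hcov
  obtain ⟨g, hg⟩ := exists_notMem_of_lt_covM
    (𝓜 := (fun c : ℕ → ℕ => {g : ℕ → ℕ | ∀ m, c ∉ U m (g m)}) '' C)
    (Cardinal.mk_image_le.trans_lt hC) (by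
      rintro _ ⟨c, hc, rfl⟩
      have hcl : IsClosed {g : ℕ → ℕ | ∀ m, c ∉ U m (g m)} := by
        simp only [Set.ofPred_forall]
        refine isClosed_iInter fun m => ?_
        have h1 : IsClosed ((fun g : ℕ → ℕ => g m) ⁻¹' {j | c ∉ U m j}) :=
          (isClosed_discrete _).preimage (continuous_apply m)
        exact h1
      refine IsNowhereDense.isMeagre ?_
      rw [hcl.isNowhereDense_iff, eq_empty_iff_forall_notMem]
      intro g hg
      have hJ : ∀ m, ∃ j, c ∈ U m j := fun m => by simpa using hcov m hc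
      choose J hJ using hJ
      have hlim : Tendsto (fun j : ℕ => Function.update g j (J j)) atTop (𝓝 g) := by
        rw [tendsto_pi_nhds]
        intro i
        refine tendsto_const_nhds.congr' ?_
        filter_upwards [eventually_gt_atTop i] with j hj
        rw [Function.update_of_ne hj.ne]
      obtain ⟨j, hj⟩ := (hlim.eventually (isOpen_interior.mem_nhds hg)).exists
      have := interior_subset hj j
      simp only [Function.update_self] at this
      exact this (hJ j))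
  refine ⟨g, fun c hc => ?_⟩
  have h1 := hg _ ⟨c, hc, rfl⟩
  by_contra h2
  apply h1
  intro m hm
  exact h2 (mem_iUnion.2 ⟨m, hm⟩)

/-- Rothberger's property, with selected sets covering each point infinitely often. -/
theorem Rothberger.frequently {C : Set (ℕ → ℕ)} (hC : Rothberger C) (U : ℕ → ℕ → Set (ℕ → ℕ))
    (hU : ∀ m j, IsOpen (U m j)) (hcov : ∀ m, C ⊆ ⋃ j, U m j) :
    ∃ g : ℕ → ℕ, ∀ c ∈ C, ∃ᶠ m in atTop, c ∈ U m (g m) := by
  have h1 : ∀ N : ℕ, ∃ g : ℕ → ℕ, C ⊆ ⋃ k, U (Nat.pair N k) (g k) := fun N =>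
    hC (fun k => U (Nat.pair N k)) (fun k j => hU _ j) (fun k => hcov _)
  choose g hg using h1
  refine ⟨fun m => g m.unpair.1 m.unpair.2, fun c hc => ?_⟩
  rw [frequently_atTop]
  intro N
  obtain ⟨k, hk⟩ := mem_iUnion.1 (hg N hc)
  refine ⟨Nat.pair N k, Nat.left_le_pair N k, ?_⟩
  simpa using hk

variable {Y : Type} [TopologicalSpace Y] [PolishSpace Y] [MeasurableSpace Y] [BorelSpace Y]

/-- The finite union of basic sets coded by `j`, if it is small, else the empty set. -/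
noncomputable def Fin2 (μ : Measure Y) (V : ℕ → Set Y) (m j : ℕ) : Set Y :=
  letI := Classical.propDecidable
  let s : Finset ℕ := (Encodable.decode j).getD ∅
  if μ (⋃ i ∈ s, V i) ≤ 2⁻¹ ^ m then ⋃ i ∈ s, V i else ∅

theorem Fin2_le (μ : Measure Y) (V : ℕ → Set Y) (m j : ℕ) : μ (Fin2 μ V m j) ≤ 2⁻¹ ^ m := by
  unfold Fin2
  dsimp only
  split_ifs with h
  · exact h
  · simp

theorem Fin2_encode (μ : Measure Y) (V : ℕ → Set Y) (m : ℕ) (s : Finset ℕ)
    (hs : μ (⋃ i ∈ s, V i) ≤ 2⁻¹ ^ m) : Fin2 μ V m (Encodable.encode s) = ⋃ i ∈ s, V i := by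
  unfold Fin2
  simp only [Encodable.encodek, Option.getD_some]
  rw [if_pos hs]

/-- The family used to refute Goldstern's principle. -/
def AC (V : ℕ → Set Y) (C : Set (ℕ → ℕ)) : Set ((ℕ → ℕ) × Y) :=
  {p | ∃ c ∈ C, ∀ m, ∃ k ≤ p.1 m, p.2 ∈ V (c (Nat.pair m k))}

theorem AC_null (μ : Measure Y) [IsProbabilityMeasure μ] (V : ℕ → Set Y) (C : Set (ℕ → ℕ))
    (hC : Rothberger C) (hn : ∀ c ∈ C, NullCode μ V c) (x : ℕ → ℕ) :
    μ {y | (x, y) ∈ AC V C} = 0 := by
  -- the finite sets of indices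
  let S : (ℕ → ℕ) → ℕ → Finset ℕ := fun c m =>
    (Finset.range (x m + 1)).image fun k => c (Nat.pair m k)
  obtain ⟨g, hg⟩ := hC.frequently (fun m j => {c | Encodable.encode (S c m) = j}) (by
      intro m j
      have hcont : Continuous fun c : ℕ → ℕ => fun k : Fin (x m + 1) => c (Nat.pair m k) :=
        continuous_pi fun k => continuous_apply _
      have hS : ∀ c, S c m = Finset.univ.image fun k : Fin (x m + 1) => c (Nat.pair m k) := by
        intro c
        ext i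
        simp only [S, Finset.mem_image, Finset.mem_range, Finset.mem_univ, true_and]
        constructor
        · rintro ⟨k, hk, rfl⟩
          exact ⟨⟨k, hk⟩, rfl⟩
        · rintro ⟨k, rfl⟩
          exact ⟨k, k.2, rfl⟩
      have h1 : IsOpen ((fun c : ℕ → ℕ => fun k : Fin (x m + 1) => c (Nat.pair m k)) ⁻¹'
          {w | Encodable.encode (Finset.univ.image w) = j}) :=
        (isOpen_discrete _).preimage hcont
      convert h1 using 1
      ext c
      simp only [hS]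
      rfl) (by
      intro m c _
      exact mem_iUnion.2 ⟨_, rfl⟩)
  have hnull : μ {y | ∃ᶠ m in atTop, y ∈ Fin2 μ V m (g m)} = 0 := by
    refine measure_setOfPred_frequently_eq_zero ?_
    have h1 : ∑' m, μ {y | y ∈ Fin2 μ V m (g m)} ≤ ∑' m : ℕ, (2⁻¹ : ENNReal) ^ m :=
      ENNReal.tsum_le_tsum fun m => Fin2_le μ V m (g m)
    refine ne_top_of_le_ne_top ?_ h1
    rw [ENNReal.tsum_geometric, ENNReal.one_sub_inv_two, inv_inv]
    simp
  refine measure_mono_null ?_ hnull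
  rintro y ⟨c, hc, hy⟩
  refine (hg c hc).mono fun m hm => ?_
  replace hm : g m = Encodable.encode (S c m) := hm.symm
  have hsub : (⋃ i ∈ S c m, V i) ⊆ Op V c m := by
    intro z hz
    simp only [S, mem_iUnion, Finset.mem_image, exists_prop] at hz
    obtain ⟨i, ⟨k, -, rfl⟩, hz⟩ := hz
    exact mem_iUnion.2 ⟨k, hz⟩
  rw [hm, Fin2_encode μ V m _ ((measure_mono hsub).trans (hn c hc m))]
  obtain ⟨k, hk, hyk⟩ := hy m
  simp only [S, mem_iUnion, Finset.mem_image, exists_prop]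
  exact ⟨_, ⟨k, Finset.mem_range.2 (Nat.lt_succ_of_le hk), rfl⟩, hyk⟩

theorem AC_union (V : ℕ → Set Y) (C : Set (ℕ → ℕ)) :
    {y | ∃ x, (x, y) ∈ AC V C} = ⋃ c ∈ C, Gd V c := by
  ext y
  simp only [AC, mem_iUnion, Gd, Op, mem_iInter, exists_prop]
  constructor
  · rintro ⟨x, c, hc, h⟩
    exact ⟨c, hc, fun m => by obtain ⟨k, -, hk⟩ := h m; exact ⟨k, hk⟩⟩
  · rintro ⟨c, hc, h⟩
    choose x hx using h
    exact ⟨x, c, hc, fun m => ⟨x m, le_rfl, hx m⟩⟩

theorem AC_mono (V : ℕ → Set Y) (C : Set (ℕ → ℕ)) (x x' : ℕ → ℕ) (h : x ≤ x') :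
    {y | (x, y) ∈ AC V C} ⊆ {y | (x', y) ∈ AC V C} := by
  rintro y ⟨c, hc, hy⟩
  exact ⟨c, hc, fun m => by obtain ⟨k, hk, hyk⟩ := hy m; exact ⟨k, hk.trans (h m), hyk⟩⟩

theorem AC_sig {n : ℕ} (V : ℕ → Set Y) (hV : ∀ i, IsOpen (V i)) (C : Set (ℕ → ℕ))
    (hC : IsSig n C) : IsSig n (AC V C) := by
  have hP0 : PolishSpace ((ℕ → ℕ) × Y) := polish_prod
  have hP : PolishSpace (((ℕ → ℕ) × Y) × (ℕ → ℕ)) := polish_prod
  have h1 : IsSig n {q : ((ℕ → ℕ) × Y) × (ℕ → ℕ) | q.2 ∈ C} :=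
    hC.preimage (f := fun q : ((ℕ → ℕ) × Y) × (ℕ → ℕ) => q.2) (by fun_prop)
  have h2 : IsSig n {q : ((ℕ → ℕ) × Y) × (ℕ → ℕ) |
      ∀ m, ∃ k ≤ q.1.1 m, q.1.2 ∈ V (q.2 (Nat.pair m k))} := by
    refine isSig_of_measurable (pos_of_isSig hC) ?_
    have : {q : ((ℕ → ℕ) × Y) × (ℕ → ℕ) | ∀ m, ∃ k ≤ q.1.1 m, q.1.2 ∈ V (q.2 (Nat.pair m k))} =
        ⋂ m : ℕ, ⋃ k : ℕ, ({q | k ≤ q.1.1 m} ∩
          ⋃ j : ℕ, ({q | q.2 (Nat.pair m k) = j} ∩ {q | q.1.2 ∈ V j})) := by
      ext q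
      simp
    rw [this]
    refine MeasurableSet.iInter fun m => MeasurableSet.iUnion fun k => ?_
    refine (measurableSet_le (by fun_prop) (by fun_prop)).inter (MeasurableSet.iUnion fun j => ?_)
    refine (measurableSet_eq_fun (by fun_prop) (by fun_prop)).inter ?_
    exact (hV j).measurableSet.preimage (by fun_prop)
  have h3 := (h1.union_inter h2).2.proj
  convert h3 using 1
  ext ⟨x, y⟩
  constructor
  · rintro ⟨c, hc, hy⟩
    exact ⟨((x, y), c), ⟨hc, hy⟩, rfl⟩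
  · rintro ⟨⟨⟨x', y'⟩, c⟩, ⟨hc, hy⟩, heq⟩
    simp only [Prod.mk.injEq] at heq
    obtain ⟨rfl, rfl⟩ := heq
    exact ⟨c, hc, hy⟩

/-- Under `GP(Σ¹ₙ)` a `Σ¹ₙ` set of null codes with Rothberger's property has a null union. -/
theorem null_of_gp {n : ℕ} (hGP : GP n) (μ : Measure Y) [IsProbabilityMeasure μ] (V : ℕ → Set Y)
    (hV : ∀ i, IsOpen (V i)) (C : Set (ℕ → ℕ)) (hC : IsSig n C) (hR : Rothberger C)
    (hn : ∀ c ∈ C, NullCode μ V c) : μ (⋃ c ∈ C, Gd V c) = 0 := by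
  rw [← AC_union]
  exact hGP Y μ (AC V C) (AC_sig V hV C hC) (AC_null μ V C hR hn) (AC_mono V C)

/-- Under `GP(all)` a set of null codes with Rothberger's property has a null union. -/
theorem null_of_gpall (hGP : GPall) (μ : Measure Y) [IsProbabilityMeasure μ] (V : ℕ → Set Y)
    (C : Set (ℕ → ℕ)) (hR : Rothberger C)
    (hn : ∀ c ∈ C, NullCode μ V c) : μ (⋃ c ∈ C, Gd V c) = 0 := by
  rw [← AC_union]
  exact hGP Y μ (AC V C) (AC_null μ V C hR hn) (AC_mono V C)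

/-- Every null set is contained in a coded one. -/
theorem exists_codes (μ : Measure Y) [IsProbabilityMeasure μ] :
    ∃ V : ℕ → Set Y, (∀ i, IsOpen (V i)) ∧
      ∀ N : Set Y, μ N = 0 → ∃ c, NullCode μ V c ∧ N ⊆ Gd V c := by
  classical
  obtain ⟨b, hbc, -, hb⟩ := TopologicalSpace.exists_countable_basis Y
  obtain ⟨V, hV⟩ := (hbc.insert (∅ : Set Y)).exists_eq_range (insert_nonempty _ _)
  obtain ⟨i0, hi0⟩ : (∅ : Set Y) ∈ range V := by rw [← hV]; exact mem_insert _ _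
  refine ⟨V, fun i => ?_, fun N hN => ?_⟩
  · have : V i ∈ insert ∅ b := by rw [hV]; exact mem_range_self i
    rcases this with h | h
    · rw [h]; exact isOpen_empty
    · exact hb.isOpen h
  · have h1 : ∀ m : ℕ, ∃ U : Set Y, N ⊆ U ∧ IsOpen U ∧ μ U ≤ 2⁻¹ ^ m := by
      intro m
      obtain ⟨U, h1, h2, h3⟩ := N.exists_isOpen_lt_of_lt (μ := μ) (2⁻¹ ^ m)
        (by rw [hN]; exact ENNReal.pow_pos (by simp) m)
      exact ⟨U, h1, h2, h3.le⟩
    choose U hNU hUo hUm using h1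
    let c : ℕ → ℕ := fun j => if V j.unpair.2 ⊆ U j.unpair.1 then j.unpair.2 else i0
    have hOp : ∀ m, Op V c m = U m := by
      intro m
      apply Subset.antisymm
      · intro y hy
        simp only [Op, mem_iUnion] at hy
        obtain ⟨k, hk⟩ := hy
        simp only [c, Nat.unpair_pair] at hk
        split_ifs at hk with h
        · exact h hk
        · rw [hi0] at hk; exact hk.elim
      · intro y hy
        obtain ⟨W, hWb, hyW, hWU⟩ := hb.exists_subset_of_mem_open hy (hUo m)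
        obtain ⟨k, hk⟩ : W ∈ range V := by rw [← hV]; exact mem_insert_of_mem _ hWb
        simp only [Op, mem_iUnion]
        refine ⟨k, ?_⟩
        simp only [c, Nat.unpair_pair]
        rw [if_pos (by rw [hk]; exact hWU), hk]
        exact hyW
    refine ⟨c, fun m => by rw [hOp]; exact hUm m, ?_⟩
    intro y hy
    simp only [Gd, mem_iInter, hOp]
    exact fun m => hNU m hy

theorem measurable_nullCode (μ : Measure Y) (V : ℕ → Set Y) :
    MeasurableSet {d : ℕ → ℕ | NullCode μ V d} := by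
  have h1 : ∀ m, Measurable fun d : ℕ → ℕ => μ (Op V d m) := by
    intro m
    have h2 : ∀ d : ℕ → ℕ, μ (Op V d m) =
        ⨆ K : ℕ, μ (⋃ k : Fin K, V (d (Nat.pair m k))) := by
      intro d
      have hmono : Monotone fun K : ℕ => ⋃ k : Fin K, V (d (Nat.pair m k)) := by
        intro K K' hK y hy
        obtain ⟨k, hk⟩ := mem_iUnion.1 hy
        exact mem_iUnion.2 ⟨⟨k, lt_of_lt_of_le k.2 hK⟩, hk⟩
      rw [← hmono.measure_iUnion]
      congr 1
      ext y
      simp only [Op, mem_iUnion]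
      constructor
      · rintro ⟨k, hk⟩
        exact ⟨k + 1, ⟨k, Nat.lt_succ_self k⟩, hk⟩
      · rintro ⟨K, k, hk⟩
        exact ⟨k, hk⟩
    simp only [h2]
    refine Measurable.iSup fun K => ?_
    have h3 : Measurable fun w : Fin K → ℕ => μ (⋃ k : Fin K, V (w k)) := measurable_of_countable _
    exact h3.comp (measurable_pi_lambda _ fun k => measurable_pi_apply _)
  have : {d : ℕ → ℕ | NullCode μ V d} = ⋂ m : ℕ, {d | μ (Op V d m) ≤ 2⁻¹ ^ m} := by
    ext d
    simp [NullCode]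
  rw [this]
  exact MeasurableSet.iInter fun m => measurableSet_le (h1 m) measurable_const

theorem real_null_of_restrict {S : Set ℝ}
    (h : ∀ k : ℤ, (volume.restrict (Ico (k : ℝ) (k + 1))) S = 0) : volume S = 0 := by
  have h1 : ∀ k : ℤ, volume (S ∩ Ico (k : ℝ) (k + 1)) = 0 := by
    intro k
    have := h k
    rwa [Measure.restrict_apply' measurableSet_Ico] at this
  have h2 : S ⊆ ⋃ k : ℤ, (S ∩ Ico (k : ℝ) (k + 1)) := by
    intro y hy
    refine mem_iUnion.2 ⟨⌊y⌋, hy, Int.floor_le y, Int.lt_floor_add_one y⟩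
  exact measure_mono_null h2 (measure_iUnion_null h1)

/-- `GP(all)` implies `cov(ℳ) ≤ add(𝒩)`. -/
theorem covM_le_addN (hGP : GPall) : covM ≤ addN := by
  refine le_addN fun 𝒩 hc hN => real_null_of_restrict fun k => ?_
  let μ : Measure ℝ := volume.restrict (Ico (k : ℝ) (k + 1))
  have hμ : IsProbabilityMeasure μ := ⟨by simp [μ]⟩
  obtain ⟨V, hV, hcode⟩ := exists_codes μ
  have hN' : ∀ N ∈ 𝒩, μ N = 0 := fun N hN'' =>
    Measure.absolutelyContinuous_of_le Measure.restrict_le_self (hN N hN'')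
  choose! c hc1 hc2 using hcode
  have hC : #(c '' 𝒩) < covM := Cardinal.mk_image_le.trans_lt hc
  have h1 : μ (⋃ d ∈ c '' 𝒩, Gd V d) = 0 := by
    refine null_of_gpall hGP μ V _ (rothberger_of_card hC) ?_
    rintro _ ⟨N, hN1, rfl⟩
    exact hc1 N (hN' N hN1)
  refine measure_mono_null ?_ h1
  rintro y ⟨N, hN1, hy⟩
  exact mem_biUnion (mem_image_of_mem c hN1) (hc2 N (hN' N hN1) hy)

/-- A projective well-order whose initial segments have size less than `cov(ℳ)` refutes `GP(Σ¹ₘ)`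
if `add(𝒩) < 𝔠` and `𝔠` is regular. -/
theorem not_gp_of_covM {m : ℕ} (r : (ℕ → ℕ) → (ℕ → ℕ) → Prop) [IsWellOrder (ℕ → ℕ) r]
    (hr : IsSig m {p : (ℕ → ℕ) × (ℕ → ℕ) | r p.1 p.2}) (hcard : ∀ y, #{z | r z y} < covM)
    (hcov : covM ≤ 𝔠) (hreg : Cardinal.IsRegular (𝔠 : Cardinal.{0})) (hadd : addN < 𝔠) : ¬ GP m := by
  intro hGP
  -- a family of size `add(𝒩)` with non-null union
  obtain ⟨𝒩, hcN, hN, hne⟩ : addN ∈ {κ | ∃ 𝒩 : Set (Set ℝ), #𝒩 = κ ∧ (∀ N ∈ 𝒩, volume N = 0) ∧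
      volume (⋃₀ 𝒩) ≠ 0} := by
    apply csInf_mem
    by_contra h
    rw [not_nonempty_iff_eq_empty] at h
    have h1 : 𝔠 ≤ addN → False := fun h => absurd hadd (not_lt.2 h)
    have h2 : range (fun x : ℝ => ({x} : Set ℝ)) ∈ {𝒩 : Set (Set ℝ) | (∀ N ∈ 𝒩, volume N = 0) ∧
      volume (⋃₀ 𝒩) ≠ 0} := by
      refine ⟨?_, ?_⟩
      · rintro _ ⟨x, rfl⟩
        simp
      · have : ⋃₀ range (fun x : ℝ => ({x} : Set ℝ)) = Set.univ := by
          ext x; simp
        rw [this]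
        simp
    have h3 : #(range (fun x : ℝ => ({x} : Set ℝ))) ∈ {κ | ∃ 𝒩 : Set (Set ℝ), #𝒩 = κ ∧
      (∀ N ∈ 𝒩, volume N = 0) ∧ volume (⋃₀ 𝒩) ≠ 0} := ⟨_, rfl, h2.1, h2.2⟩
    rw [h] at h3
    exact h3
  obtain ⟨k, hk⟩ : ∃ k : ℤ, (volume.restrict (Ico (k : ℝ) (k + 1))) (⋃₀ 𝒩) ≠ 0 := by
    by_contra h
    push Not at h
    exact hne (real_null_of_restrict h)
  let μ : Measure ℝ := volume.restrict (Ico (k : ℝ) (k + 1))
  have hμ : IsProbabilityMeasure μ := ⟨by simp [μ]⟩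
  obtain ⟨V, hV, hcode⟩ := exists_codes μ
  have hN' : ∀ N ∈ 𝒩, μ N = 0 := fun N hN'' =>
    Measure.absolutelyContinuous_of_le Measure.restrict_le_self (hN N hN'')
  choose! c hc1 hc2 using hcode
  -- the codes are bounded in the well-order
  obtain ⟨y0, hy0⟩ : ∃ y0, ∀ d ∈ c '' 𝒩, r d y0 := by
    by_contra hcon
    push Not at hcon
    have hcov' : (Set.univ : Set (ℕ → ℕ)) = ⋃ d ∈ c '' 𝒩, ({z | r z d} ∪ {d}) := by
      symm
      rw [eq_univ_iff_forall]
      intro y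
      obtain ⟨d, hd, hdy⟩ := hcon y
      refine mem_biUnion hd ?_
      rcases trichotomous_of r d y with h | h | h
      · exact absurd h hdy
      · exact Or.inr h.symm
      · exact Or.inl h
    have hlt : #(Set.univ : Set (ℕ → ℕ)) < 𝔠 := by
      have hsz : #(c '' 𝒩 : Set (ℕ → ℕ)) < 𝔠 :=
        Cardinal.mk_image_le.trans_lt (by rw [hcN]; exact hadd)
      rw [hcov']
      refine (Cardinal.card_biUnion_lt_iff_forall_of_isRegular hreg hsz).2 ?_
      intro d hd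
      refine (Cardinal.mk_union_le _ _).trans_lt ?_
      refine Cardinal.add_lt_of_lt hreg.aleph0_le ((hcard d).trans_le hcov) ?_
      rw [Cardinal.mk_singleton]
      exact Cardinal.one_lt_aleph0.trans_le hreg.aleph0_le
    rw [Cardinal.mk_univ] at hlt
    have h2 : #(ℕ → ℕ) = 𝔠 := by simp
    rw [h2] at hlt
    exact lt_irrefl _ hlt
  -- the null codes below `y0`
  let C : Set (ℕ → ℕ) := {d | r d y0} ∩ {d | NullCode μ V d}
  have hCm : MeasurableSet {d | NullCode μ V d} := measurable_nullCode μ V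
  have hC : IsSig m C := by
    have h1 : IsSig m {d : ℕ → ℕ | r d y0} :=
      hr.preimage (f := fun d : ℕ → ℕ => (d, y0)) (by fun_prop)
    exact (h1.union_inter (isSig_of_measurable (pos_of_isSig hr) hCm)).2
  have h1 := null_of_gp hGP μ V hV C hC
    (rothberger_of_card ((Cardinal.mk_le_mk_of_subset inter_subset_left).trans_lt (hcard y0)))
    (fun d hd => hd.2)
  apply hk
  refine measure_mono_null ?_ h1
  rintro y ⟨N, hN1, hy⟩
  exact mem_biUnion (x := c N) ⟨hy0 _ (mem_image_of_mem c hN1), hc1 N (hN' N hN1)⟩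
    (hc2 N (hN' N hN1) hy)

/-- A projective well-order of type `𝔠` when `cov(ℳ) = 𝔠` is regular. -/
theorem separation_of_covM {k m : ℕ} (r : (ℕ → ℕ) → (ℕ → ℕ) → Prop) [IsWellOrder (ℕ → ℕ) r]
    (hk : GP k) (hcov : covM = 𝔠) (hreg : Cardinal.IsRegular (𝔠 : Cardinal.{0}))
    (hr : IsSig m {p : (ℕ → ℕ) × (ℕ → ℕ) | r p.1 p.2}) (hcard : ∀ y, #{z | r z y} < 𝔠) :
    (∃ n, k ≤ n ∧ n ≤ m ∧ GP n ∧ ¬ GP (n + 1)) ∧
      (addN < 𝔠 ∨ Good m r → ∃ n, k ≤ n ∧ n < m ∧ GP n ∧ ¬ GP (n + 1)) := by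
  have h1 : addN < 𝔠 → ¬ GP m := fun h =>
    not_gp_of_covM r hr (by rw [hcov]; exact hcard) hcov.le hreg h
  have h2 : addN < 𝔠 ∨ SmallSegments r := by
    rcases lt_or_ge addN 𝔠 with h | h
    · exact Or.inl h
    · exact Or.inr (small_of_card r fun y => (hcard y).trans_le h)
  have h3 : ¬ GP (m + 1) := by
    rcases h2 with h | h
    · exact fun hG => h1 h (gp_of_succ m hG)
    · exact not_gp_succ r hr h
  have h4 : addN < 𝔠 ∨ Good m r → ¬ GP m := by
    rintro (h | hg)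
    · exact h1 h
    · rcases h2 with h | h
      · exact h1 h
      · exact not_gp_good r (pos_of_isSig hr) hg h
  refine ⟨?_, fun h => separation hk (h4 h) gp_of_succ⟩
  obtain ⟨n, ha, hb, hc, hd⟩ := separation hk h3 gp_of_succ
  exact ⟨n, ha, by omega, hc, hd⟩

end Pool.Agent.Helper39.Gold
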