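import Pool.Agent.Helper39.Gold.Cov

/-! # `Σ¹ₙ` sets with Rothberger's property are bounded under `GP(Σ¹ₙ)` -/

namespace Pool.Agent.Helper39.Gold

open MeasureTheory Cardinal Set Filter Topology unitInterval

/-- Continuous images preserve Rothberger's property. -/
theorem Rothberger.image {C : Set (ℕ → ℕ)} (hC : Rothberger C) {Φ : (ℕ → ℕ) → (ℕ → ℕ)}
    (hΦ : Continuous Φ) : Rothberger (Φ '' C) := by
  intro U hU hcov
  obtain ⟨g, hg⟩ := hC (fun m j => Φ ⁻¹' U m j) (fun m j => (hU m j).preimage hΦ) (by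
    intro m c hc
    obtain ⟨j, hj⟩ := mem_iUnion.1 (hcov m (mem_image_of_mem Φ hc))
    exact mem_iUnion.2 ⟨j, hj⟩)
  refine ⟨g, ?_⟩
  rintro _ ⟨c, hc, rfl⟩
  obtain ⟨m, hm⟩ := mem_iUnion.1 (hg hc)
  exact mem_iUnion.2 ⟨m, hm⟩

theorem IsSig.image {n : ℕ} {C : Set (ℕ → ℕ)} (hC : IsSig n C) {Φ : (ℕ → ℕ) → (ℕ → ℕ)}
    (hΦ : Continuous Φ) : IsSig n (Φ '' C) := by
  have hP : PolishSpace ((ℕ → ℕ) × (ℕ → ℕ)) := polish_prod
  have h1 : IsSig n {p : (ℕ → ℕ) × (ℕ → ℕ) | p.2 ∈ C} :=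
    hC.preimage (f := fun p : (ℕ → ℕ) × (ℕ → ℕ) => p.2) (by fun_prop)
  have h2 : IsSig n {p : (ℕ → ℕ) × (ℕ → ℕ) | Φ p.2 = p.1} :=
    isSig_of_measurable (pos_of_isSig hC) (isClosed_eq (by fun_prop) (by fun_prop)).measurableSet
  have h3 := (h1.union_inter h2).2.proj
  convert h3 using 1
  ext d
  constructor
  · rintro ⟨c, hc, rfl⟩
    exact ⟨(Φ c, c), ⟨hc, rfl⟩, rfl⟩
  · rintro ⟨⟨d', c⟩, ⟨hc, hd⟩, rfl⟩
    exact ⟨c, hc, hd⟩

/-- The open sets used to code the null sets `HH f`. -/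
noncomputable def VV (j : ℕ) : Set (ℕ → I) := {y | y j.unpair.1 < thr j.unpair.2}

/-- The code of `HH f`. -/
def cd (f : ℕ → ℕ) : ℕ → ℕ := fun j =>
  Nat.pair (f (j.unpair.1 + 1 + j.unpair.2)) (j.unpair.1 + 1 + j.unpair.2)

theorem continuous_cd : Continuous cd := by
  unfold cd
  refine continuous_pi fun j => ?_
  exact (continuous_of_discreteTopology (f := fun a : ℕ =>
    Nat.pair a (j.unpair.1 + 1 + j.unpair.2))).comp (continuous_apply _)

theorem isOpen_VV (j : ℕ) : IsOpen (VV j) :=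
  isOpen_lt (continuous_apply _) continuous_const

theorem Op_cd (f : ℕ → ℕ) (m : ℕ) :
    Op VV (cd f) m = ⋃ k : ℕ, {y | y (f (m + 1 + k)) < thr (m + 1 + k)} := by
  simp only [Op, VV, cd, Nat.unpair_pair]

theorem nullCode_cd (f : ℕ → ℕ) : NullCode pm VV (cd f) := by
  intro m
  rw [Op_cd]
  calc pm (⋃ k : ℕ, {y | y (f (m + 1 + k)) < thr (m + 1 + k)})
      ≤ ∑' k : ℕ, pm {y | y (f (m + 1 + k)) < thr (m + 1 + k)} := measure_iUnion_le _
    _ = ∑' k : ℕ, (2⁻¹ : ENNReal) ^ (m + 1 + k) := by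
        congr 1
        funext k
        rw [pm_lt, ENNReal.ofReal_pow (by norm_num)]
        congr 1
        rw [one_div, ENNReal.ofReal_inv_of_pos (by norm_num)]
        simp
    _ = 2⁻¹ ^ m := by
        simp only [pow_add, pow_one]
        rw [ENNReal.tsum_mul_left, ENNReal.tsum_geometric, ENNReal.one_sub_inv_two, inv_inv,
          mul_assoc, ENNReal.inv_mul_cancel (by simp) (by simp), mul_one]

theorem HH_subset (f : ℕ → ℕ) : HH f ⊆ Gd VV (cd f) := by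
  intro y hy
  simp only [Gd, mem_iInter, Op_cd]
  intro m
  obtain ⟨n, hn, hyn⟩ := frequently_atTop.1 hy (m + 1)
  refine mem_iUnion.2 ⟨n - (m + 1), ?_⟩
  have : m + 1 + (n - (m + 1)) = n := by omega
  simp only [this]
  exact hyn

/-- Under `GP(Σ¹ₙ)` a `Σ¹ₙ` set with Rothberger's property is eventually bounded. -/
theorem bdd_of_gp {n : ℕ} (hGP : GP n) {C : Set (ℕ → ℕ)} (hC : IsSig n C) (hR : Rothberger C) :
    ∃ x : ℕ → ℕ, ∀ f ∈ C, ∀ᶠ i in atTop, f i ≤ x i := by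
  apply bdd_of_null
  have h := null_of_gp hGP pm VV isOpen_VV (cd '' C) (hC.image continuous_cd)
    (hR.image continuous_cd) (by rintro _ ⟨f, -, rfl⟩; exact nullCode_cd f)
  refine measure_mono_null ?_ h
  rintro y ⟨_, ⟨f, hf, rfl⟩, hy⟩
  exact mem_biUnion (mem_image_of_mem cd hf) (HH_subset f hy)

end Pool.Agent.Helper39.Gold
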