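import Pool.Agent.Helper39.Gold.Defs

/-! # Goldstern's principle and covering by meagre sets: definitions -/

namespace Pool.Agent.Helper39.Gold

open MeasureTheory Cardinal Set

/-- The covering number of the meagre ideal: the least cardinality of a family of meagre subsets of
`ω^ω` whose union is `ω^ω`. -/
noncomputable def covM : Cardinal.{0} :=
  sInf {κ | ∃ 𝓜 : Set (Set (ℕ → ℕ)), #𝓜 = κ ∧ (∀ M ∈ 𝓜, IsMeagre M) ∧ ⋃₀ 𝓜 = Set.univ}

/-- Rothberger's property: from every sequence of open covers one can select one member of each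
cover such that the selected sets cover. (In the Baire space countable covers suffice.) -/
def Rothberger (C : Set (ℕ → ℕ)) : Prop :=
  ∀ U : ℕ → ℕ → Set (ℕ → ℕ), (∀ m j, IsOpen (U m j)) → (∀ m, C ⊆ ⋃ j, U m j) →
    ∃ g : ℕ → ℕ, C ⊆ ⋃ m, U m (g m)

/-- Goldstern's principle `GP(all)` for the class of all sets. -/
def GPall : Prop :=
  ∀ (Y : Type) [TopologicalSpace Y] [PolishSpace Y] [MeasurableSpace Y] [BorelSpace Y]
    (μ : Measure Y) [IsProbabilityMeasure μ] (A : Set ((ℕ → ℕ) × Y)),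
    (∀ x, μ {y | (x, y) ∈ A} = 0) →
    (∀ x x', x ≤ x' → {y | (x, y) ∈ A} ⊆ {y | (x', y) ∈ A}) →
    μ {y | ∃ x, (x, y) ∈ A} = 0

/-- The `m`-th open set coded by `c`: the union of the sets `V (c ⟨m, k⟩)`. -/
def Op {Y : Type} (V : ℕ → Set Y) (c : ℕ → ℕ) (m : ℕ) : Set Y :=
  ⋃ k : ℕ, V (c (Nat.pair m k))

/-- `c` codes a `G_δ` null set: the `m`-th open set has measure at most `2⁻ᵐ`. -/
def NullCode {Y : Type} [MeasurableSpace Y] (μ : Measure Y) (V : ℕ → Set Y) (c : ℕ → ℕ) : Prop :=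
  ∀ m, μ (Op V c m) ≤ 2⁻¹ ^ m

/-- The `G_δ` set coded by `c`. -/
def Gd {Y : Type} (V : ℕ → Set Y) (c : ℕ → ℕ) : Set Y := ⋂ m, Op V c m

end Pool.Agent.Helper39.Gold
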