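import Mathlib

/-! # Goldstern's principle: definitions -/

namespace Pool.Agent.Helper39.Gold

open MeasureTheory Cardinal Set

/-- `IsSig n A` (for `n ≥ 1`): the subset `A` of the Polish space `X` is boldface `Σ¹ₙ`. A set is
`Σ¹₁` if it is analytic, and `Σ¹ₙ₊₁` if it is the projection of a `Π¹ₙ` subset of `X × ω^ω`. -/
def IsSig : ℕ → ∀ {X : Type} [TopologicalSpace X], Set X → Prop
  | 0, _, _, _ => False
  | 1, _, _, A => AnalyticSet A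
  | (n + 2), X, _, A => ∃ B : Set (X × (ℕ → ℕ)), IsSig (n + 1) Bᶜ ∧ A = Prod.fst '' B

/-- Goldstern's principle `GP(Σ¹ₙ)`. -/
def GP (n : ℕ) : Prop :=
  ∀ (Y : Type) [TopologicalSpace Y] [PolishSpace Y] [MeasurableSpace Y] [BorelSpace Y]
    (μ : Measure Y) [IsProbabilityMeasure μ] (A : Set ((ℕ → ℕ) × Y)), IsSig n A →
    (∀ x, μ {y | (x, y) ∈ A} = 0) →
    (∀ x x', x ≤ x' → {y | (x, y) ∈ A} ⊆ {y | (x', y) ∈ A}) →
    μ {y | ∃ x, (x, y) ∈ A} = 0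

/-- Every set of pairwise incompatible elements is countable. -/
def CCC (P : Type) [PartialOrder P] : Prop :=
  ∀ A : Set P, (∀ p ∈ A, ∀ q ∈ A, p ≠ q → ¬ ∃ r, r ≤ p ∧ r ≤ q) → A.Countable

/-- Martin's axiom (for ccc partial orders and fewer than continuum many dense sets). -/
def MA : Prop :=
  ∀ (P : Type) [PartialOrder P] [Nonempty P], CCC P →
    ∀ 𝒟 : Set (Set P), #𝒟 < 𝔠 → (∀ D ∈ 𝒟, ∀ p, ∃ d ∈ D, d ≤ p) →
    ∃ G : Set P, G.Nonempty ∧ (∀ p ∈ G, ∀ q, p ≤ q → q ∈ G) ∧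
      (∀ p ∈ G, ∀ q ∈ G, ∃ r ∈ G, r ≤ p ∧ r ≤ q) ∧ ∀ D ∈ 𝒟, (G ∩ D).Nonempty

/-- The additivity of the ideal of Lebesgue null sets of reals: the least cardinality of a family
of null sets whose union is not null. -/
noncomputable def addN : Cardinal.{0} :=
  sInf {κ | ∃ 𝒩 : Set (Set ℝ), #𝒩 = κ ∧ (∀ N ∈ 𝒩, volume N = 0) ∧ volume (⋃₀ 𝒩) ≠ 0}

/-- Every proper initial segment of `r` is eventually bounded by one function and is null for one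
fixed Borel probability measure on `ω^ω`. -/
def SmallSegments (r : (ℕ → ℕ) → (ℕ → ℕ) → Prop) : Prop :=
  (∀ y, ∃ x : ℕ → ℕ, ∀ z, r z y → ∀ᶠ n in Filter.atTop, z n ≤ x n) ∧
    ∃ μ : Measure (ℕ → ℕ), IsProbabilityMeasure μ ∧ ∀ y, μ {z | r z y} = 0

/-- The relation `r` is good at level `m`: the class `Σ¹ₘ` is closed under `∀ z, r z y → …`. -/
def Good (m : ℕ) (r : (ℕ → ℕ) → (ℕ → ℕ) → Prop) : Prop :=
  ∀ P : Set ((ℕ → ℕ) × (ℕ → ℕ)), IsSig m P → IsSig m {p : (ℕ → ℕ) × (ℕ → ℕ) | ∀ z, r z p.2 → (p.1, z) ∈ P}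

end Pool.Agent.Helper39.Gold
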