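import Pool.Agent.Helper39.Gold.Defs

/-! # Closure properties of the projective classes -/

namespace Pool.Agent.Helper39.Gold

open MeasureTheory Cardinal Set

theorem IsSig.preimage : ∀ {n : ℕ} {X Z : Type} [TopologicalSpace X] [TopologicalSpace Z]
    [PolishSpace X] [PolishSpace Z] {A : Set Z} (_ : IsSig n A) {f : X → Z} (_ : Continuous f),
    IsSig n (f ⁻¹' A)
  | 0, _, _, _, _, _, _, _, h, _, _ => h.elim
  | 1, _, _, _, _, _, _, _, h, _, hf => AnalyticSet.preimage h hf
  | (n + 2), X, Z, _, _, _, _, A, ⟨B, hB, hA⟩, f, hf => by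
    refine ⟨(fun p : X × (ℕ → ℕ) => (f p.1, p.2)) ⁻¹' B, ?_, ?_⟩
    · have := IsSig.preimage (n := n + 1) hB (f := fun p : X × (ℕ → ℕ) => (f p.1, p.2))
        (by fun_prop)
      simpa using this
    · subst hA
      ext x
      simp

theorem isSig_succ_of_compl {n : ℕ} (hn : 1 ≤ n) {X : Type} [TopologicalSpace X] [PolishSpace X]
    {A : Set X} (h : IsSig n Aᶜ) : IsSig (n + 1) A := by
  obtain ⟨n, rfl⟩ := Nat.exists_eq_add_of_le' hn
  refine ⟨Prod.fst ⁻¹' A, ?_, ?_⟩
  · have := IsSig.preimage h (f := (Prod.fst : X × (ℕ → ℕ) → X)) continuous_fst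
    simpa using this
  · ext x
    simp

theorem analytic_of_open {X : Type} [TopologicalSpace X] [PolishSpace X]
    {A : Set X} (h : IsOpen A) : AnalyticSet A := by
  have := h.analyticSet_image (f := (id : X → X)) continuous_id
  simpa using this

theorem isSig_two_of_analytic {X : Type} [TopologicalSpace X] [PolishSpace X]
    {A : Set X} (h : AnalyticSet A) : IsSig 2 A := by
  rw [AnalyticSet] at h
  rcases h with rfl | ⟨f, hf, rfl⟩
  · refine ⟨∅, ?_, by simp⟩
    have : IsOpen ((∅ : Set (X × (ℕ → ℕ)))ᶜ) := by simp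
    exact analytic_of_open this
  · refine ⟨{p | f p.2 = p.1}, ?_, ?_⟩
    · have hc : IsClosed {p : X × (ℕ → ℕ) | f p.2 = p.1} :=
        isClosed_eq (hf.comp continuous_snd) continuous_fst
      exact analytic_of_open hc.isOpen_compl
    · ext x
      simp

theorem IsSig.succ : ∀ {n : ℕ} {X : Type} [TopologicalSpace X] [PolishSpace X] {A : Set X}
    (_ : IsSig n A), IsSig (n + 1) A
  | 0, _, _, _, _, h => h.elim
  | 1, _, _, _, _, h => isSig_two_of_analytic h
  | (_ + 2), _, _, _, _, ⟨B, hB, hA⟩ => ⟨B, IsSig.succ hB, hA⟩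

theorem IsSig.mono {n m : ℕ} (h : n ≤ m) {X : Type} [TopologicalSpace X] [PolishSpace X]
    {A : Set X} (hA : IsSig n A) : IsSig m A := by
  induction m, h using Nat.le_induction with
  | base => exact hA
  | succ m _ ih => exact ih.succ

/-- Interleaving: the homeomorphism between `ω^ω × ω^ω` and `ω^ω`; we only use the two halves. -/
def ev (v : ℕ → ℕ) : ℕ → ℕ := fun n => v (2 * n)

def od (v : ℕ → ℕ) : ℕ → ℕ := fun n => v (2 * n + 1)

theorem continuous_ev : Continuous ev := by unfold ev; fun_prop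

theorem continuous_od : Continuous od := by unfold od; fun_prop

def mix (a b : ℕ → ℕ) : ℕ → ℕ := fun n => if n % 2 = 0 then a (n / 2) else b (n / 2)

@[simp] theorem ev_mix (a b : ℕ → ℕ) : ev (mix a b) = a := by
  funext n; simp [ev, mix]

@[simp] theorem od_mix (a b : ℕ → ℕ) : od (mix a b) = b := by
  funext n
  have h1 : (2 * n + 1) % 2 ≠ 0 := by omega
  have h2 : (2 * n + 1) / 2 = n := by omega
  simp only [od, mix, if_neg h1, h2]

/-- `Σ¹ₙ` is closed under projections along `ω^ω`. -/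
theorem IsSig.proj : ∀ {n : ℕ} {X : Type} [TopologicalSpace X] [PolishSpace X]
    {C : Set (X × (ℕ → ℕ))} (_ : IsSig n C), IsSig n (Prod.fst '' C)
  | 0, _, _, _, _, h => h.elim
  | 1, _, _, _, _, h => AnalyticSet.image_of_continuous h continuous_fst
  | (n + 2), X, _, _, C, ⟨D, hD, hC⟩ => by
    refine ⟨(fun p : X × (ℕ → ℕ) => ((p.1, ev p.2), od p.2)) ⁻¹' D, ?_, ?_⟩
    · have := IsSig.preimage hD
        (f := fun p : X × (ℕ → ℕ) => ((p.1, ev p.2), od p.2))
        ((continuous_fst.prodMk (continuous_ev.comp continuous_snd)).prodMk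
          (continuous_od.comp continuous_snd))
      simpa using this
    · subst hC
      ext x
      constructor
      · rintro ⟨⟨x', z⟩, ⟨⟨⟨x'', z'⟩, w⟩, hw, h1⟩, rfl⟩
        simp only [Prod.mk.injEq] at h1
        obtain ⟨rfl, rfl⟩ := h1
        exact ⟨(x'', mix z' w), by simpa using hw, rfl⟩
      · rintro ⟨⟨x', v⟩, hv, rfl⟩
        exact ⟨(x', ev v), ⟨_, hv, rfl⟩, rfl⟩

theorem IsSig.union_inter : ∀ {n : ℕ} {X : Type} [TopologicalSpace X] [PolishSpace X]
    {A A' : Set X} (_ : IsSig n A) (_ : IsSig n A'), IsSig n (A ∪ A') ∧ IsSig n (A ∩ A')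
  | 0, _, _, _, _, _, h, _ => h.elim
  | 1, _, _, _, A, A', h, h' => by
    constructor
    · change AnalyticSet (A ∪ A')
      rw [union_eq_iUnion]
      exact AnalyticSet.iUnion (by intro b; cases b <;> assumption)
    · change AnalyticSet (A ∩ A')
      rw [inter_eq_iInter]
      exact AnalyticSet.iInter (by intro b; cases b <;> assumption)
  | (n + 2), X, _, _, A, A', ⟨B, hB, hA⟩, ⟨B', hB', hA'⟩ => by
    constructor
    · refine ⟨B ∪ B', ?_, ?_⟩
      · rw [compl_union]
        exact (IsSig.union_inter hB hB').2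
      · rw [hA, hA', image_union]
    · refine ⟨(fun p : X × (ℕ → ℕ) => (p.1, ev p.2)) ⁻¹' B ∩
        (fun p : X × (ℕ → ℕ) => (p.1, od p.2)) ⁻¹' B', ?_, ?_⟩
      · rw [compl_inter]
        have h1 := IsSig.preimage hB (f := fun p : X × (ℕ → ℕ) => (p.1, ev p.2))
          (continuous_fst.prodMk (continuous_ev.comp continuous_snd))
        have h2 := IsSig.preimage hB' (f := fun p : X × (ℕ → ℕ) => (p.1, od p.2))
          (continuous_fst.prodMk (continuous_od.comp continuous_snd))
        exact (IsSig.union_inter h1 h2).1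
      · subst hA hA'
        ext x
        constructor
        · rintro ⟨⟨⟨x1, z⟩, h1, rfl⟩, ⟨⟨x2, w⟩, h2, h3⟩⟩
          simp only at h3
          subst h3
          exact ⟨(x2, mix z w), ⟨by simpa using h1, by simpa using h2⟩, rfl⟩
        · rintro ⟨⟨x1, v⟩, ⟨h1, h2⟩, rfl⟩
          exact ⟨⟨_, h1, rfl⟩, ⟨_, h2, rfl⟩⟩

theorem isSig_of_measurable {n : ℕ} (hn : 1 ≤ n) {X : Type} [TopologicalSpace X] [PolishSpace X]
    [MeasurableSpace X] [BorelSpace X] {A : Set X} (h : MeasurableSet A) : IsSig n A := by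
  have h1 : IsSig 1 A := h.analyticSet
  exact h1.mono hn

end Pool.Agent.Helper39.Gold
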